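import Pool.Agent.Narrow.Excess

/-!
MP_a217f7_co.  Pairs of ideals of type (1,1): the inequality of Ahlswede and Daykin.
-/

set_option autoImplicit false

namespace Pool.Agent.Narrow

open Classical
open scoped FinsetFamily

variable {P : Type} [Fintype P] [PartialOrder P]

/-- Ideals of type `({i}, {j})`. -/
noncomputable def Fij (X : Set P) (i j : P) : Finset (Set P) :=
  (Fam P).filter (fun I => tS X I = {i} ∧ tT X I = {j})

/-- Ideals of `X` of type `{i, i'}`. -/
noncomputable def A2 (X : Set P) (i i' : P) : Finset (Set P) :=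
  (FA X).filter (fun I => tS X I = {i, i'})

/-- Ideals containing `X` of type `{j, j'}`. -/
noncomputable def B2 (X : Set P) (j j' : P) : Finset (Set P) :=
  (FB X).filter (fun I => tT X I = {j, j'})

theorem daykin (X : Set P) {i i' j j' : P} (hi : i ≠ i') (hj : j ≠ j') :
    (Fij X i j).card * (Fij X i' j').card ≤ (A2 X i i').card * (B2 X j j').card := by
  refine le_trans (Finset.le_card_infs_mul_card_sups _ _) ?_
  apply Nat.mul_le_mul
  · apply Finset.card_le_card
    intro K hK
    rw [Finset.mem_infs] at hK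
    obtain ⟨I, hI, J, hJ, rfl⟩ := hK
    simp only [Fij, Finset.mem_filter, mem_Fam] at hI hJ
    have e : I ⊓ J = I ∩ J := rfl
    have hT : tT X (I ∩ J) = ∅ := by
      rw [tT_inter, hI.2.2, hJ.2.2, ← Finset.disjoint_iff_inter_eq_empty]
      simpa using hj
    rw [e, A2, Finset.mem_filter, FA, Finset.mem_filter, mem_Fam]
    refine ⟨⟨hI.1.inter hJ.1, hT⟩, ?_⟩
    rw [tS_inter, hI.2.1, hJ.2.1]
    rfl
  · apply Finset.card_le_card
    intro K hK
    rw [Finset.mem_sups] at hK
    obtain ⟨I, hI, J, hJ, rfl⟩ := hK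
    simp only [Fij, Finset.mem_filter, mem_Fam] at hI hJ
    have e : I ⊔ J = I ∪ J := rfl
    have hS : tS X (I ∪ J) = ∅ := by
      rw [tS_union, hI.2.1, hJ.2.1, ← Finset.disjoint_iff_inter_eq_empty]
      simpa using hi
    rw [e, B2, Finset.mem_filter, FB, Finset.mem_filter, mem_Fam]
    refine ⟨⟨hI.1.union hJ.1, hS⟩, ?_⟩
    rw [tT_union, hI.2.2, hJ.2.2]
    rfl

/-- Every ideal of type (1,1) has exactly one type. -/
theorem card_F1 (X : Set P) :
    (F1 X).card = ∑ p ∈ (Mx X) ×ˢ (My X), (Fij X p.1 p.2).card := by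
  simp only [F1, Fij, Finset.card_filter]
  rw [Finset.sum_comm]
  apply Finset.sum_congr rfl
  intro I _
  by_cases h : (tS X I).card = 1 ∧ (tT X I).card = 1
  · rw [if_pos h]
    obtain ⟨a, ha⟩ := Finset.card_eq_one.1 h.1
    obtain ⟨b, hb⟩ := Finset.card_eq_one.1 h.2
    have haM : a ∈ Mx X := by
      have : a ∈ tS X I := by rw [ha]; simp
      exact (mem_tS.1 this).1
    have hbM : b ∈ My X := by
      have : b ∈ tT X I := by rw [hb]; simp
      exact (mem_tT.1 this).1
    rw [Finset.sum_eq_single (a, b)]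
    · simp [ha, hb]
    · rintro ⟨a', b'⟩ _ hne
      rw [ha, hb]
      by_cases h1 : a = a'
      · by_cases h2 : b = b'
        · exact absurd (by rw [h1, h2]) hne
        · simp [h2]
      · simp [h1]
    · intro hn
      exact absurd (Finset.mem_product.2 ⟨haM, hbM⟩) hn
  · rw [if_neg h]
    symm
    apply Finset.sum_eq_zero
    rintro ⟨a, b⟩ _
    rw [if_neg]
    rintro ⟨h1, h2⟩
    exact h ⟨by rw [h1]; simp, by rw [h2]; simp⟩

theorem row_le (X : Set P) (i : P) :
    ∑ j ∈ My X, (Fij X i j).card ≤ ((Fam P).filter (fun I => i ∉ I)).card := by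
  simp only [Fij, Finset.card_filter]
  rw [Finset.sum_comm]
  apply Finset.sum_le_sum
  intro I _
  by_cases h : tS X I = {i}
  · have hi : i ∉ I := by
      have : i ∈ tS X I := by rw [h]; simp
      exact (mem_tS.1 this).2
    rw [if_pos hi]
    have hone : ∀ s : Finset P, ∑ x ∈ s, (if tS X I = {i} ∧ tT X I = {x} then 1 else 0) ≤ 1 := by
      intro s
      rw [← Finset.card_filter]
      apply Finset.card_le_one.2
      intro a ha b hb
      rw [Finset.mem_filter] at ha hb
      have : ({a} : Finset P) = {b} := by rw [← ha.2.2, hb.2.2]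
      exact Finset.singleton_injective this
    exact hone _
  · refine le_trans (le_of_eq ?_) (Nat.zero_le _)
    apply Finset.sum_eq_zero
    intro j _
    rw [if_neg]
    exact fun h' => h h'.1

theorem col_le (X : Set P) (j : P) :
    ∑ i ∈ Mx X, (Fij X i j).card ≤ ((Fam P).filter (fun I => j ∈ I)).card := by
  simp only [Fij, Finset.card_filter]
  rw [Finset.sum_comm]
  apply Finset.sum_le_sum
  intro I _
  by_cases h : tT X I = {j}
  · have hj : j ∈ I := by
      have : j ∈ tT X I := by rw [h]; simp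
      exact (mem_tT.1 this).2
    rw [if_pos hj]
    have hone : ∀ s : Finset P, ∑ x ∈ s, (if tS X I = {x} ∧ tT X I = {j} then 1 else 0) ≤ 1 := by
      intro s
      rw [← Finset.card_filter]
      apply Finset.card_le_one.2
      intro a ha b hb
      rw [Finset.mem_filter] at ha hb
      have : ({a} : Finset P) = {b} := by rw [← ha.2.1, hb.2.1]
      exact Finset.singleton_injective this
    exact hone _
  · refine le_trans (le_of_eq ?_) (Nat.zero_le _)
    apply Finset.sum_eq_zero
    intro i _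
    rw [if_neg]
    exact fun h' => h h'.2

/-- Ordered pairs. -/
theorem ordered_pairs (s : Finset P) (M : Finset P) :
    ((M ×ˢ M).filter (fun p => p.1 ≠ p.2 ∧ s = {p.1, p.2})).card ≤
      if s.card = 2 then 2 else 0 := by
  by_cases h : s.card = 2
  · rw [if_pos h]
    obtain ⟨a, b, hab, rfl⟩ := Finset.card_eq_two.1 h
    refine le_trans (Finset.card_le_card (t := {(a, b), (b, a)}) ?_) Finset.card_le_two
    rintro ⟨x, y⟩ hp
    simp only [Finset.mem_filter] at hp
    obtain ⟨_, hxy, he⟩ := hp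
    have hx : x ∈ ({a, b} : Finset P) := by rw [he]; simp
    have hy : y ∈ ({a, b} : Finset P) := by rw [he]; simp
    simp only [Finset.mem_insert, Finset.mem_singleton] at hx hy ⊢
    rcases hx with rfl | rfl <;> rcases hy with rfl | rfl
    · exact absurd rfl hxy
    · left; rfl
    · right; rfl
    · exact absurd rfl hxy
  · rw [if_neg h]
    refine le_of_eq ?_
    rw [Finset.card_eq_zero, Finset.filter_eq_empty_iff]
    rintro ⟨x, y⟩ _ ⟨hxy, he⟩
    exact h (by rw [he]; exact Finset.card_pair hxy)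

theorem sum_A2 (X : Set P) :
    ∑ p ∈ ((Mx X) ×ˢ (Mx X)).filter (fun p => p.1 ≠ p.2), (A2 X p.1 p.2).card ≤
      2 * ((FA X).filter (fun I => (tS X I).card = 2)).card := by
  simp only [A2, Finset.card_filter]
  rw [Finset.sum_comm, Finset.mul_sum]
  apply Finset.sum_le_sum
  intro I _
  rw [← Finset.card_filter, Finset.filter_filter]
  refine le_trans (ordered_pairs (tS X I) (Mx X)) ?_
  split_ifs <;> simp

theorem sum_B2 (X : Set P) :
    ∑ p ∈ ((My X) ×ˢ (My X)).filter (fun p => p.1 ≠ p.2), (B2 X p.1 p.2).card ≤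
      2 * ((FB X).filter (fun I => (tT X I).card = 2)).card := by
  simp only [B2, Finset.card_filter]
  rw [Finset.sum_comm, Finset.mul_sum]
  apply Finset.sum_le_sum
  intro I _
  rw [← Finset.card_filter, Finset.filter_filter]
  refine le_trans (ordered_pairs (tT X I) (My X)) ?_
  split_ifs <;> simp

/-- The main inequality for the ideals of type (1,1). -/
theorem pair_ineq (X : Set P) (ρ : ℝ)
    (hrow : ∀ i ∈ Mx X, (((Fam P).filter (fun I => i ∉ I)).card : ℝ) ≤ ρ)
    (hcol : ∀ j ∈ My X, (((Fam P).filter (fun I => j ∈ I)).card : ℝ) ≤ ρ) :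
    ((F1 X).card : ℝ) * ((F1 X).card - 2 * ρ) ≤
      4 * (((FA X).filter (fun I => (tS X I).card = 2)).card : ℝ) *
        (((FB X).filter (fun I => (tT X I).card = 2)).card : ℝ) := by
  set M := Mx X with hM
  set M' := My X with hM'
  set f : P × P → ℝ := fun p => ((Fij X p.1 p.2).card : ℝ) with hf
  have hf0 : ∀ p, 0 ≤ f p := fun p => by simp [hf]
  have ht : ((F1 X).card : ℝ) = ∑ p ∈ M ×ˢ M', f p := by
    rw [card_F1]; push_cast; rfl
  set t : ℝ := ((F1 X).card : ℝ) with htdef
  -- the pairs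
  have h1 : ∀ p ∈ M ×ˢ M', t - 2 * ρ ≤
      ∑ p' ∈ (M ×ˢ M').filter (fun p' => p.1 ≠ p'.1 ∧ p.2 ≠ p'.2), f p' := by
    rintro ⟨i, j⟩ hp
    rw [Finset.mem_product] at hp
    have e1 : t ≤ (∑ p' ∈ (M ×ˢ M').filter (fun p' => i ≠ p'.1 ∧ j ≠ p'.2), f p') +
        (∑ p' ∈ (M ×ˢ M').filter (fun p' => i = p'.1), f p') +
        ∑ p' ∈ (M ×ˢ M').filter (fun p' => j = p'.2), f p' := by
      rw [ht, Finset.sum_filter, Finset.sum_filter, Finset.sum_filter, ← Finset.sum_add_distrib,
        ← Finset.sum_add_distrib]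
      apply Finset.sum_le_sum
      intro p' _
      have := hf0 p'
      by_cases ha : i = p'.1 <;> by_cases hb : j = p'.2 <;> simp [ha, hb] <;> linarith
    have e2 : ∑ p' ∈ (M ×ˢ M').filter (fun p' => i = p'.1), f p' ≤ ρ := by
      refine le_trans (le_of_eq ?_) (le_trans (Nat.cast_le.2 (row_le X i)) (hrow i hp.1))
      rw [Finset.sum_filter, Finset.sum_product]
      rw [Finset.sum_eq_single i]
      · simp only [if_true]
        push_cast
        rfl
      · intro b _ hb
        apply Finset.sum_eq_zero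
        intro x _
        rw [if_neg]
        exact fun h => hb h.symm
      · intro h
        exact absurd hp.1 h
    have e3 : ∑ p' ∈ (M ×ˢ M').filter (fun p' => j = p'.2), f p' ≤ ρ := by
      refine le_trans (le_of_eq ?_) (le_trans (Nat.cast_le.2 (col_le X j)) (hcol j hp.2))
      rw [Finset.sum_filter, Finset.sum_product_right]
      rw [Finset.sum_eq_single j]
      · simp only [if_true]
        push_cast
        rfl
      · intro b _ hb
        apply Finset.sum_eq_zero
        intro x _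
        rw [if_neg]
        exact fun h => hb h.symm
      · intro h
        exact absurd hp.2 h
    have : t - 2 * ρ ≤ ∑ p' ∈ (M ×ˢ M').filter (fun p' => i ≠ p'.1 ∧ j ≠ p'.2), f p' := by
      linarith
    exact this
  have h2 : t * (t - 2 * ρ) ≤ ∑ p ∈ M ×ˢ M',
      ∑ p' ∈ (M ×ˢ M').filter (fun p' => p.1 ≠ p'.1 ∧ p.2 ≠ p'.2), f p * f p' := by
    calc t * (t - 2 * ρ) = ∑ p ∈ M ×ˢ M', f p * (t - 2 * ρ) := by rw [← Finset.sum_mul, ← ht]
      _ ≤ _ := by
        apply Finset.sum_le_sum
        intro p hp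
        rw [← Finset.mul_sum]
        exact mul_le_mul_of_nonneg_left (h1 p hp) (hf0 p)
  have h3 : ∑ p ∈ M ×ˢ M',
      ∑ p' ∈ (M ×ˢ M').filter (fun p' => p.1 ≠ p'.1 ∧ p.2 ≠ p'.2), f p * f p' ≤
      (∑ p ∈ (M ×ˢ M).filter (fun p => p.1 ≠ p.2), ((A2 X p.1 p.2).card : ℝ)) *
        ∑ p ∈ (M' ×ˢ M').filter (fun p => p.1 ≠ p.2), ((B2 X p.1 p.2).card : ℝ) := by
    have e1 : ∑ p ∈ M ×ˢ M',
        ∑ p' ∈ (M ×ˢ M').filter (fun p' => p.1 ≠ p'.1 ∧ p.2 ≠ p'.2), f p * f p' ≤
        ∑ p ∈ M ×ˢ M', ∑ p' ∈ M ×ˢ M',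
          (if p.1 ≠ p'.1 then ((A2 X p.1 p'.1).card : ℝ) else 0) *
          (if p.2 ≠ p'.2 then ((B2 X p.2 p'.2).card : ℝ) else 0) := by
      apply Finset.sum_le_sum
      intro p _
      rw [Finset.sum_filter]
      apply Finset.sum_le_sum
      intro p' _
      by_cases ha : p.1 ≠ p'.1
      · by_cases hb : p.2 ≠ p'.2
        · rw [if_pos ⟨ha, hb⟩, if_pos ha, if_pos hb]
          simp only [hf]
          exact_mod_cast daykin X ha hb
        · rw [if_neg (fun h => hb h.2), if_neg hb, mul_zero]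
      · rw [if_neg (fun h => ha h.1), if_neg ha, zero_mul]
    refine le_trans e1 (le_of_eq ?_)
    rw [Finset.sum_filter, Finset.sum_filter, Finset.sum_product, Finset.sum_product,
      Finset.sum_product, Finset.sum_mul]
    apply Finset.sum_congr rfl
    intro i _
    rw [Finset.sum_mul_sum]
    rw [Finset.sum_comm]
    have : ∀ j ∈ M', ∑ p' ∈ M ×ˢ M',
        (if (i, j).1 ≠ p'.1 then ((A2 X (i, j).1 p'.1).card : ℝ) else 0) *
          (if (i, j).2 ≠ p'.2 then ((B2 X (i, j).2 p'.2).card : ℝ) else 0) =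
        ∑ i' ∈ M, ∑ j' ∈ M', (if i ≠ i' then ((A2 X i i').card : ℝ) else 0) *
          (if j ≠ j' then ((B2 X j j').card : ℝ) else 0) := by
      intro j _
      rw [Finset.sum_product]
    rw [Finset.sum_comm, Finset.sum_congr rfl this, Finset.sum_comm]
    apply Finset.sum_congr rfl
    intro i' _
    apply Finset.sum_congr rfl
    intro j _
    rw [Finset.mul_sum]
  have h4 : (∑ p ∈ (M ×ˢ M).filter (fun p => p.1 ≠ p.2), ((A2 X p.1 p.2).card : ℝ)) ≤
      2 * (((FA X).filter (fun I => (tS X I).card = 2)).card : ℝ) := by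
    exact_mod_cast sum_A2 X
  have h5 : (∑ p ∈ (M' ×ˢ M').filter (fun p => p.1 ≠ p.2), ((B2 X p.1 p.2).card : ℝ)) ≤
      2 * (((FB X).filter (fun I => (tT X I).card = 2)).card : ℝ) := by
    exact_mod_cast sum_B2 X
  calc t * (t - 2 * ρ) ≤ _ := h2
    _ ≤ _ := h3
    _ ≤ (2 * (((FA X).filter (fun I => (tS X I).card = 2)).card : ℝ)) *
        (2 * (((FB X).filter (fun I => (tT X I).card = 2)).card : ℝ)) :=
        mul_le_mul h4 h5 (Finset.sum_nonneg (fun _ _ => by positivity)) (by positivity)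
    _ = _ := by ring

/-- At most one ideal of each type (1,1). -/
theorem Fij_le_one {X : Set P} (hX : IsLowerSet X)
    (hA : ∀ i ∈ Mx X, ((FA X).filter (fun I => tS X I = {i})).card ≤ 1)
    (hB : ∀ j ∈ My X, ((FB X).filter (fun I => tT X I = {j})).card ≤ 1)
    {i j : P} {I J : Set P} (hI : I ∈ Fij X i j) (hJ : J ∈ Fij X i j) : I = J := by
  simp only [Fij, Finset.mem_filter, mem_Fam] at hI hJ
  have hi : i ∈ Mx X := by
    have : i ∈ tS X I := by rw [hI.2.1]; simp
    exact (mem_tS.1 this).1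
  have hj : j ∈ My X := by
    have : j ∈ tT X I := by rw [hI.2.2]; simp
    exact (mem_tT.1 this).1
  have hSX : tS X X = ∅ := tS_of_sub le_rfl
  have hTX : tT X X = ∅ := tT_of_sub le_rfl
  have e1 : I ∩ X = J ∩ X := by
    apply Finset.card_le_one.1 (hA i hi)
    · rw [Finset.mem_filter, mem_FA hX]
      refine ⟨⟨hI.1.inter hX, Set.inter_subset_right⟩, ?_⟩
      rw [tS_inter, hSX, Finset.union_empty, hI.2.1]
    · rw [Finset.mem_filter, mem_FA hX]
      refine ⟨⟨hJ.1.inter hX, Set.inter_subset_right⟩, ?_⟩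
      rw [tS_inter, hSX, Finset.union_empty, hJ.2.1]
  have e2 : I ∪ X = J ∪ X := by
    apply Finset.card_le_one.1 (hB j hj)
    · rw [Finset.mem_filter, mem_FB hX]
      refine ⟨⟨hI.1.union hX, Set.subset_union_right⟩, ?_⟩
      rw [tT_union, hTX, Finset.union_empty, hI.2.2]
    · rw [Finset.mem_filter, mem_FB hX]
      refine ⟨⟨hJ.1.union hX, Set.subset_union_right⟩, ?_⟩
      rw [tT_union, hTX, Finset.union_empty, hJ.2.2]
  ext z
  have m1 := Set.ext_iff.1 e1 z
  have m2 := Set.ext_iff.1 e2 z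
  simp only [Set.mem_inter_iff, Set.mem_union] at m1 m2
  by_cases hz : z ∈ X
  · tauto
  · tauto

/-- More than four ideals of type (1,1) force another mixed ideal. -/
theorem exists_FR {X : Set P} (hX : IsLowerSet X)
    (hA : ∀ i ∈ Mx X, ((FA X).filter (fun I => tS X I = {i})).card ≤ 1)
    (hB : ∀ j ∈ My X, ((FB X).filter (fun I => tT X I = {j})).card ≤ 1)
    (hcard : (My X).card < (F1 X).card) : (FR X).card ≠ 0 := by
  have hmap : ∀ I ∈ F1 X, tT X I ∈ (My X).powersetCard 1 := by
    intro I hI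
    simp only [F1, Finset.mem_filter] at hI
    rw [Finset.mem_powersetCard]
    exact ⟨Finset.filter_subset _ _, hI.2.2⟩
  have hc : ((My X).powersetCard 1).card < (F1 X).card := by
    rw [Finset.card_powersetCard, Nat.choose_one_right]; exact hcard
  obtain ⟨I, hI, J, hJ, hne, hIJ⟩ := Finset.exists_ne_map_eq_of_card_lt_of_maps_to hc hmap
  simp only [F1, Finset.mem_filter, mem_Fam] at hI hJ
  obtain ⟨i, hi⟩ := Finset.card_eq_one.1 hI.2.1
  obtain ⟨i', hi'⟩ := Finset.card_eq_one.1 hJ.2.1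
  obtain ⟨j, hj⟩ := Finset.card_eq_one.1 hI.2.2
  have hj' : tT X J = {j} := by rw [← hIJ, hj]
  have hii : i ≠ i' := by
    intro h
    subst h
    apply hne
    apply Fij_le_one hX hA hB (i := i) (j := j)
    · simp only [Fij, Finset.mem_filter, mem_Fam]; exact ⟨hI.1, hi, hj⟩
    · simp only [Fij, Finset.mem_filter, mem_Fam]; exact ⟨hJ.1, hi', hj'⟩
  have hmem : I ∩ J ∈ FR X := by
    simp only [FR, Finset.mem_filter, mem_Fam]
    have hS : tS X (I ∩ J) = {i, i'} := by rw [tS_inter, hi, hi']; rfl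
    have hT : tT X (I ∩ J) = {j} := by rw [tT_inter, hj, hj']; simp
    rw [hS, hT, Finset.card_pair hii]
    refine ⟨hI.1.inter hJ.1, ?_, ?_, ?_⟩
    · simp
    · simp
    · simp
  exact Finset.card_ne_zero_of_mem hmem

/-- At most `p q` ideals of type (1,1). -/
theorem F1_le {X : Set P} (hX : IsLowerSet X)
    (hA : ∀ i ∈ Mx X, ((FA X).filter (fun I => tS X I = {i})).card ≤ 1)
    (hB : ∀ j ∈ My X, ((FB X).filter (fun I => tT X I = {j})).card ≤ 1) :
    (F1 X).card ≤ (Mx X).card * (My X).card := by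
  rw [card_F1, ← Finset.card_product]
  refine le_trans (Finset.sum_le_card_nsmul _ _ 1 ?_) (by simp)
  intro p _
  apply Finset.card_le_one.2
  intro I hI J hJ
  exact Fij_le_one hX hA hB hI hJ

end Pool.Agent.Narrow
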