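import Pool.Agent.Narrow.Excess
import Pool.Agent.Narrow.Pairs

/-!
MP_a217f7_co.  Posets of width at most four: the lower bounds.
-/

set_option autoImplicit false

namespace Pool.Agent.Narrow

open Classical

variable {P : Type} [Fintype P] [PartialOrder P]

/-- The number of ideals which contain `x`. -/
noncomputable def cin (x : P) : ℕ := ((Fam P).filter (fun I => x ∈ I)).card

/-- The number of ideals which do not contain `x`. -/
noncomputable def cout (x : P) : ℕ := ((Fam P).filter (fun I => x ∉ I)).card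

theorem cin_add_cout (x : P) : cin x + cout x = (Fam P).card := by
  unfold cin cout
  exact Finset.card_filter_add_card_filter_not _

theorem Fam_pos (P : Type) [Fintype P] [PartialOrder P] : 0 < (Fam P).card :=
  Finset.card_pos.2 ⟨∅, mem_Fam.2 isLowerSet_empty⟩

theorem cout_mono {x y : P} (h : x ≤ y) : cout x ≤ cout y := by
  unfold cout
  apply Finset.card_le_card
  intro I hI
  rw [Finset.mem_filter] at hI ⊢
  exact ⟨hI.1, fun hy => hI.2 ((mem_Fam.1 hI.1) h hy)⟩

theorem cout_le_cin_of_min {m : P} (hm : IsMin m) : cout m ≤ cin m := by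
  unfold cout cin
  apply Finset.card_le_card_of_injOn (fun I => insert m I)
  · intro I hI
    rw [Finset.mem_coe, Finset.mem_filter, mem_Fam] at hI
    rw [Finset.mem_coe, Finset.mem_filter, mem_Fam]
    refine ⟨?_, Set.mem_insert _ _⟩
    intro a b hba ha
    rcases Set.mem_insert_iff.1 ha with rfl | ha
    · have : b = a := le_antisymm hba (hm hba)
      rw [this]
      exact Set.mem_insert _ _
    · exact Set.mem_insert_of_mem _ (hI.1 hba ha)
  · intro I hI J hJ h
    rw [Finset.mem_coe, Finset.mem_filter, mem_Fam] at hI hJ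
    ext z
    by_cases hz : z = m
    · subst hz; simp [hI.2, hJ.2]
    · have := Set.ext_iff.1 h z
      simpa [hz] using this

theorem cin_le_cout_of_max {m : P} (hm : IsMax m) : cin m ≤ cout m := by
  unfold cout cin
  apply Finset.card_le_card_of_injOn (fun I => I \ {m})
  · intro I hI
    rw [Finset.mem_coe, Finset.mem_filter, mem_Fam] at hI
    rw [Finset.mem_coe, Finset.mem_filter, mem_Fam]
    refine ⟨?_, by simp⟩
    intro a b hba ha
    refine ⟨hI.1 hba ha.1, ?_⟩
    intro hb
    have hb' : b = m := hb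
    subst hb'
    exact ha.2 (le_antisymm (hm hba) hba)
  · intro I hI J hJ h
    rw [Finset.mem_coe, Finset.mem_filter, mem_Fam] at hI hJ
    ext z
    by_cases hz : z = m
    · subst hz; simp [hI.2, hJ.2]
    · have := Set.ext_iff.1 h z
      simpa [hz] using this

theorem sum_lt {s : Finset P} {f : P → ℕ} {d M : ℕ} (h : ∀ x ∈ s, d * f x + 1 ≤ M) :
    d * (∑ x ∈ s, f x) + s.card ≤ s.card * M := by
  have h1 : ∑ x ∈ s, (d * f x + 1) ≤ ∑ _x ∈ s, M := Finset.sum_le_sum h
  rw [Finset.sum_add_distrib, ← Finset.mul_sum] at h1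
  simpa using h1

/-- The final arithmetic in the case of width four. -/
theorem final_arith (N t r D A B : ℝ) (hr : 0 ≤ r) (hD : 8 ≤ D)
    (hA : 0 ≤ A) (hB : 0 ≤ B) (hAB : A + B ≤ 12 + D)
    (h1 : 31 * D + 66 * r + 32 ≤ 4 * t) (h2 : N ≤ 31 + D + t + r)
    (h3 : t * (t - 2 * (9 / 35 * N)) ≤ 4 * A * B) : False := by
  have h4 : 4 * A * B ≤ (12 + D) ^ 2 := by nlinarith [sq_nonneg (A - B)]
  have ht : 0 ≤ t := by linarith
  have h5 : 1050 * t - 36252 - 630 * D ≤ 66 * (35 * t - 18 * N) := by linarith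
  have h6 : 32208 + 7507.5 * (D - 8) ≤ 1050 * t - 36252 - 630 * D := by linarith
  have h7 : 70 + 7.75 * (D - 8) ≤ t := by linarith
  have h8 : (70 + 7.75 * (D - 8)) * (32208 + 7507.5 * (D - 8)) ≤
      t * (66 * (35 * t - 18 * N)) := by
    apply mul_le_mul h7 (le_trans h6 h5) _ ht
    linarith
  have h9 : t * (66 * (35 * t - 18 * N)) = 2310 * (t * (t - 2 * (9 / 35 * N))) := by ring
  rw [h9] at h8
  nlinarith

theorem no_cut {X : Set P} (hX : IsLowerSet X) (w c d : ℕ)
    (hwcd : (w = 1 ∧ c = 1 ∧ d = 3) ∨ (w = 2 ∧ c = 2 ∧ d = 7) ∨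
      (w = 3 ∧ c = 4 ∧ d = 15) ∨ (w = 4 ∧ c = 9 ∧ d = 35))
    (hp0 : 1 ≤ (Mx X).card) (hq0 : 1 ≤ (My X).card)
    (hp : (Mx X).card ≤ w) (hq : (My X).card ≤ w)
    (hS : ∀ x ∈ Mx X, d * cout x + 1 ≤ c * (Fam P).card)
    (hT : ∀ y ∈ My X, d * cin y + 1 ≤ c * (Fam P).card) : False := by
  have e1 := card_types hX
  have e2 := sum_S (X := X)
  have e3 := sum_T (X := X)
  have e4 := sum_ST (X := X)
  have e5 := sumA hX
  have e6 := sumB hX
  have e7 := cardA hX
  have e8 := cardB hX
  have e9 : d * (∑ I ∈ Fam P, (tS X I).card) + (Mx X).card ≤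
      (Mx X).card * (c * (Fam P).card) := by
    rw [sum_tS]; exact sum_lt hS
  have e10 : d * (∑ I ∈ Fam P, (tT X I).card) + (My X).card ≤
      (My X).card * (c * (Fam P).card) := by
    rw [sum_tT]; exact sum_lt hT
  have sA := fun x hx => singleA hX (x := x) hx
  have sB := fun y hy => singleB hX (y := y) hy
  have pA := pairsA hX
  have pB := pairsB hX
  have F1le := F1_le hX
  have exFR := exists_FR hX
  have pin := pair_ineq X (9 / 35 * ((Fam P).card : ℝ))
  have hS' : ∀ i ∈ Mx X, d * ((Fam P).filter (fun I => i ∉ I)).card + 1 ≤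
    c * (Fam P).card := hS
  have hT' : ∀ i ∈ My X, d * ((Fam P).filter (fun I => i ∈ I)).card + 1 ≤
    c * (Fam P).card := hT
  clear hS hT
  generalize hσ : ∑ I ∈ Fam P, (tS X I).card = σ at *
  generalize hτ : ∑ I ∈ Fam P, (tT X I).card = τ at *
  generalize hsA : ∑ I ∈ FA X, (tS X I).card = sumsA at *
  generalize hsB : ∑ I ∈ FB X, (tT X I).card = sumsB at *
  generalize hN : (Fam P).card = N at *
  generalize ha : (FA X).card = a at *
  generalize hb : (FB X).card = b at *
  generalize ht : (F1 X).card = t at *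
  generalize hr : (FR X).card = r at *
  generalize hDA : (DA X).card = DAc at *
  generalize hDB : (DB X).card = DBc at *
  generalize hp' : (Mx X).card = p at *
  generalize hq' : (My X).card = q at *
  rcases hwcd with ⟨rfl, rfl, rfl⟩ | ⟨rfl, rfl, rfl⟩ | ⟨rfl, rfl, rfl⟩ | ⟨rfl, rfl, rfl⟩
  · obtain rfl : p = 1 := by omega
    obtain rfl : q = 1 := by omega
    omega
  · have hp1 : p = 1 ∨ p = 2 := by omega
    have hq1 : q = 1 ∨ q = 2 := by omega
    rcases hp1 with rfl | rfl <;> rcases hq1 with rfl | rfl <;> omega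
  · have hp1 : p = 1 ∨ p = 2 ∨ p = 3 := by omega
    have hq1 : q = 1 ∨ q = 2 ∨ q = 3 := by omega
    rcases hp1 with rfl | rfl | rfl <;> rcases hq1 with rfl | rfl | rfl <;> omega
  · have hp1 : p = 1 ∨ p = 2 ∨ p = 3 ∨ p = 4 := by omega
    have hq1 : q = 1 ∨ q = 2 ∨ q = 3 ∨ q = 4 := by omega
    by_cases h44 : p = 4 ∧ q = 4
    · obtain ⟨rfl, rfl⟩ := h44
      have k1 : 31 * (DAc + DBc) + 66 * r + 32 ≤ 4 * t := by omega
      by_cases hD : 8 ≤ DAc + DBc
      · have k2 : N ≤ 31 + (DAc + DBc) + t + r := by omega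
        have k3 := pin (by
          intro i hi
          have := hS' i hi
          have h2 : ((35 * ((Fam P).filter (fun I => i ∉ I)).card + 1 : ℕ) : ℝ) ≤
            ((9 * N : ℕ) : ℝ) := by exact_mod_cast this
          push_cast at h2
          linarith) (by
          intro i hi
          have := hT' i hi
          have h2 : ((35 * ((Fam P).filter (fun I => i ∈ I)).card + 1 : ℕ) : ℝ) ≤
            ((9 * N : ℕ) : ℝ) := by exact_mod_cast this
          push_cast at h2
          linarith)
        have k4 : ((FA X).filter (fun I => (tS X I).card = 2)).card +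
            ((FB X).filter (fun I => (tT X I).card = 2)).card ≤ 12 + (DAc + DBc) := by
          have c4 : Nat.choose 4 2 = 6 := by decide
          rw [c4] at pA pB
          omega
        refine final_arith (N : ℝ) (t : ℝ) (r : ℝ) ((DAc + DBc : ℕ) : ℝ)
          (((FA X).filter (fun I => (tS X I).card = 2)).card : ℝ)
          (((FB X).filter (fun I => (tT X I).card = 2)).card : ℝ) (by positivity)
          (by exact_mod_cast hD) (by positivity) (by positivity) (by exact_mod_cast k4)
          (by exact_mod_cast k1) (by exact_mod_cast k2) k3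
      · have hA : ∀ i ∈ Mx X, ((FA X).filter (fun I => tS X I = {i})).card ≤ 1 := by
          intro i hi
          by_contra hcon
          have := sA i hi (by omega)
          norm_num at this
          omega
        have hB : ∀ j ∈ My X, ((FB X).filter (fun I => tT X I = {j})).card ≤ 1 := by
          intro i hi
          by_contra hcon
          have := sB i hi (by omega)
          norm_num at this
          omega
        have k2 := F1le hA hB
        have k3 := exFR hA hB (by omega)
        omega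
    · rcases hp1 with rfl | rfl | rfl | rfl <;> rcases hq1 with rfl | rfl | rfl | rfl <;> omega

/-- The lower bound for width at most `w` from the absence of cuts. -/
theorem central_of_no_cut (w c d : ℕ) (hcd : 2 * c < d)
    (hno : ∀ X : Set P, IsLowerSet X → 1 ≤ (Mx X).card → 1 ≤ (My X).card →
      (Mx X).card ≤ w → (My X).card ≤ w →
      (∀ x ∈ Mx X, d * cout x + 1 ≤ c * (Fam P).card) →
      (∀ y ∈ My X, d * cin y + 1 ≤ c * (Fam P).card) → False)
    [Nonempty P] (hw : ∀ A : Finset P, IsAntichain (· ≤ ·) (A : Set P) → A.card ≤ w) :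
    ∃ x : P, c * (Fam P).card ≤ d * cin x ∧ c * (Fam P).card ≤ d * cout x := by
  by_contra hcon
  push Not at hcon
  have hN := Fam_pos P
  set X : Set P := {x | d * cout x < c * (Fam P).card} with hXdef
  have hX : IsLowerSet X := by
    intro a b hba ha
    have h1 : d * cout b ≤ d * cout a := Nat.mul_le_mul_left _ (cout_mono hba)
    exact lt_of_le_of_lt h1 ha
  have hnotX : ∀ y, y ∉ X → d * cin y + 1 ≤ c * (Fam P).card := by
    intro y hy
    by_contra hlt
    exact hy (hcon y (by omega))
  have hbig : ∀ n : ℕ, (Fam P).card ≤ 2 * n → c * (Fam P).card < d * n := by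
    intro n hn
    have h1 : c * (Fam P).card ≤ c * (2 * n) := Nat.mul_le_mul_left _ hn
    have h2 : 0 < n := by omega
    nlinarith
  obtain ⟨m₀, -, hm₀⟩ := (Set.finite_univ (α := P)).exists_le_minimal
    (Set.mem_univ (Classical.arbitrary P))
  obtain ⟨m₁, -, hm₁⟩ := (Set.finite_univ (α := P)).exists_le_maximal
    (Set.mem_univ (Classical.arbitrary P))
  have hmin : IsMin m₀ := fun b hb => hm₀.2 (Set.mem_univ _) hb
  have hmax : IsMax m₁ := fun b hb => hm₁.2 (Set.mem_univ _) hb
  have hm0 : m₀ ∈ X := by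
    by_contra h
    have h1 := hnotX _ h
    have h2 := cout_le_cin_of_min hmin
    have h3 := cin_add_cout m₀
    have h4 := hbig (cin m₀) (by omega)
    omega
  have hm1 : m₁ ∉ X := by
    intro h
    have h1 : d * cout m₁ < c * (Fam P).card := h
    have h2 := cin_le_cout_of_max hmax
    have h3 := cin_add_cout m₁
    have h4 := hbig (cout m₁) (by omega)
    omega
  obtain ⟨x, hx, -⟩ := exists_mx hm0
  obtain ⟨y, hy, -⟩ := exists_my hm1
  refine hno X hX (Finset.card_pos.2 ⟨x, hx⟩) (Finset.card_pos.2 ⟨y, hy⟩)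
    (hw _ ?_) (hw _ ?_) ?_ ?_
  · intro a ha b hb hab hle
    have ha' := mem_Mx.1 ha
    have hb' := mem_Mx.1 hb
    exact hab (le_antisymm hle (ha'.2 hb'.1 hle))
  · intro a ha b hb hab hle
    have ha' := mem_My.1 ha
    have hb' := mem_My.1 hb
    exact hab (le_antisymm hle (hb'.2 ha'.1 hle))
  · intro x hx
    have h1 : x ∈ X := Mx_sub hx
    have h2 : d * cout x < c * (Fam P).card := h1
    omega
  · intro y hy
    exact hnotX y (My_sub hy)

/-- The lower bounds for width at most four. -/
theorem central_width (w c d : ℕ)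
    (hwcd : (w = 1 ∧ c = 1 ∧ d = 3) ∨ (w = 2 ∧ c = 2 ∧ d = 7) ∨
      (w = 3 ∧ c = 4 ∧ d = 15) ∨ (w = 4 ∧ c = 9 ∧ d = 35))
    [Nonempty P] (hw : ∀ A : Finset P, IsAntichain (· ≤ ·) (A : Set P) → A.card ≤ w) :
    ∃ x : P, c * (Fam P).card ≤ d * cin x ∧ c * (Fam P).card ≤ d * cout x := by
  apply central_of_no_cut w c d _ _ hw
  · rcases hwcd with ⟨_, rfl, rfl⟩ | ⟨_, rfl, rfl⟩ | ⟨_, rfl, rfl⟩ | ⟨_, rfl, rfl⟩ <;> norm_num
  · intro X hX h1 h2 h3 h4 h5 h6
    exact no_cut hX w c d hwcd h1 h2 h3 h4 h5 h6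

end Pool.Agent.Narrow
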