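import Pool.Agent.Narrow.Types

/-!
MP_a217f7_co.  Counting the ideals on one side of a cut.
-/

set_option autoImplicit false

namespace Pool.Agent.Narrow

open Classical

variable {P : Type} [Fintype P] [PartialOrder P]

theorem lower_sdiff {X I : Set P} (hI : IsLowerSet I) (hIX : I ⊆ X) {K : Set P}
    (hK : ∀ x ∈ K, x ∈ Mx X) : IsLowerSet (I \ K) := by
  intro a b hba ha
  refine ⟨hI hba ha.1, ?_⟩
  intro hb
  have hm := mem_Mx.1 (hK b hb)
  have : a ≤ b := hm.2 (hIX ha.1) hba
  have : a = b := le_antisymm this hba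
  exact ha.2 (this ▸ hb)

theorem lower_union {X I : Set P} (hI : IsLowerSet I) (hIX : X ⊆ I) {K : Set P}
    (hK : ∀ x ∈ K, x ∈ My X) : IsLowerSet (I ∪ K) := by
  intro a b hba ha
  rcases ha with ha | ha
  · exact Or.inl (hI hba ha)
  · have hm := mem_My.1 (hK a ha)
    by_cases hb : b ∈ X
    · exact Or.inl (hIX hb)
    · have : a ≤ b := hm.2 hb hba
      have : a = b := le_antisymm this hba
      exact Or.inr (this ▸ ha)

theorem sumA {X : Set P} (hX : IsLowerSet X) :
    (Mx X).card * (FA X).card + (DA X).card ≤ 2 * ∑ I ∈ FA X, (tS X I).card := by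
  have hsum : ∑ I ∈ FA X, (tS X I).card = ∑ x ∈ Mx X, ((FA X).filter (fun I => x ∉ I)).card := by
    simp only [tS, Finset.card_filter]
    rw [Finset.sum_comm]
  have hx : ∀ x ∈ Mx X, (FA X).card +
      ((FA X).filter (fun I => x ∉ I ∧ ∃ z, z < x ∧ z ∉ I)).card ≤
      2 * ((FA X).filter (fun I => x ∉ I)).card := by
    intro x hxM
    have h1 : ((FA X).filter (fun I => x ∈ I)).card ≤
        ((FA X).filter (fun I => x ∉ I ∧ ∀ z, z < x → z ∈ I)).card := by
      apply Finset.card_le_card_of_injOn (fun I => I \ {x})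
      · intro I hI
        simp only [Finset.coe_filter, Set.mem_setOf_eq] at hI ⊢
        obtain ⟨hIF, hxI⟩ := hI
        rw [mem_FA hX] at hIF ⊢
        refine ⟨⟨lower_sdiff hIF.1 hIF.2 (by intro y hy; rw [Set.mem_singleton_iff.1 hy]; exact hxM),
          fun z hz => hIF.2 hz.1⟩, fun h => h.2 rfl, ?_⟩
        intro z hz
        exact ⟨hIF.1 hz.le hxI, fun h => hz.ne (Set.mem_singleton_iff.1 h)⟩
      · intro I hI J hJ h
        simp only [Finset.coe_filter, Set.mem_setOf_eq] at hI hJ
        ext z
        by_cases hz : z = x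
        · subst hz; exact iff_of_true hI.2 hJ.2
        · have := Set.ext_iff.1 h z
          simpa [hz] using this
    have h2 : (FA X).card = ((FA X).filter (fun I => x ∈ I)).card +
        ((FA X).filter (fun I => x ∉ I)).card :=
      (Finset.card_filter_add_card_filter_not (fun I => x ∈ I)).symm
    have h3 : ((FA X).filter (fun I => x ∉ I)).card =
        ((FA X).filter (fun I => x ∉ I ∧ ∀ z, z < x → z ∈ I)).card +
        ((FA X).filter (fun I => x ∉ I ∧ ∃ z, z < x ∧ z ∉ I)).card := by
      rw [← Finset.card_filter_add_card_filter_not (s := (FA X).filter (fun I => x ∉ I))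
        (fun I => ∀ z, z < x → z ∈ I), Finset.filter_filter, Finset.filter_filter]
      congr 3
      ext I
      simp
    omega
  have hD : (DA X).card ≤ ∑ x ∈ Mx X,
      ((FA X).filter (fun I => x ∉ I ∧ ∃ z, z < x ∧ z ∉ I)).card := by
    refine le_trans (Finset.card_le_card ?_) Finset.card_biUnion_le
    intro I hI
    simp only [DA, Finset.mem_filter] at hI
    obtain ⟨hIF, x, hxM, z, hz, hzI⟩ := hI
    rw [Finset.mem_biUnion]
    refine ⟨x, hxM, ?_⟩
    rw [Finset.mem_filter]
    refine ⟨hIF, ?_, z, hz, hzI⟩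
    intro hxI
    exact hzI (((mem_FA hX).1 hIF).1 hz.le hxI)
  have hs : (Mx X).card * (FA X).card + ∑ x ∈ Mx X,
      ((FA X).filter (fun I => x ∉ I ∧ ∃ z, z < x ∧ z ∉ I)).card ≤
      2 * ∑ x ∈ Mx X, ((FA X).filter (fun I => x ∉ I)).card := by
    rw [Finset.mul_sum, ← smul_eq_mul, ← Finset.sum_const, ← Finset.sum_add_distrib]
    exact Finset.sum_le_sum hx
  rw [hsum]
  omega

theorem sumB {X : Set P} (hX : IsLowerSet X) :
    (My X).card * (FB X).card + (DB X).card ≤ 2 * ∑ I ∈ FB X, (tT X I).card := by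
  have hsum : ∑ I ∈ FB X, (tT X I).card = ∑ y ∈ My X, ((FB X).filter (fun I => y ∈ I)).card := by
    simp only [tT, Finset.card_filter]
    rw [Finset.sum_comm]
  have hx : ∀ y ∈ My X, (FB X).card +
      ((FB X).filter (fun I => y ∈ I ∧ ∃ z, y < z ∧ z ∈ I)).card ≤
      2 * ((FB X).filter (fun I => y ∈ I)).card := by
    intro y hyM
    have h1 : ((FB X).filter (fun I => y ∉ I)).card ≤
        ((FB X).filter (fun I => y ∈ I ∧ ∀ z, y < z → z ∉ I)).card := by
      apply Finset.card_le_card_of_injOn (fun I => I ∪ {y})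
      · intro I hI
        simp only [Finset.coe_filter, Set.mem_setOf_eq] at hI ⊢
        obtain ⟨hIF, hyI⟩ := hI
        rw [mem_FB hX] at hIF ⊢
        refine ⟨⟨lower_union hIF.1 hIF.2 (by intro x hx; rw [Set.mem_singleton_iff.1 hx]; exact hyM),
          fun z hz => Or.inl (hIF.2 hz)⟩, Or.inr rfl, ?_⟩
        intro z hz hzI
        rcases hzI with hzI | hzI
        · exact hyI (hIF.1 hz.le hzI)
        · exact hz.ne (Set.mem_singleton_iff.1 hzI).symm
      · intro I hI J hJ h
        simp only [Finset.coe_filter, Set.mem_setOf_eq] at hI hJ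
        ext z
        by_cases hz : z = y
        · subst hz; exact iff_of_false hI.2 hJ.2
        · have := Set.ext_iff.1 h z
          simpa [hz] using this
    have h2 : (FB X).card = ((FB X).filter (fun I => y ∈ I)).card +
        ((FB X).filter (fun I => y ∉ I)).card :=
      (Finset.card_filter_add_card_filter_not (fun I => y ∈ I)).symm
    have h3 : ((FB X).filter (fun I => y ∈ I)).card =
        ((FB X).filter (fun I => y ∈ I ∧ ∀ z, y < z → z ∉ I)).card +
        ((FB X).filter (fun I => y ∈ I ∧ ∃ z, y < z ∧ z ∈ I)).card := by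
      rw [← Finset.card_filter_add_card_filter_not (s := (FB X).filter (fun I => y ∈ I))
        (fun I => ∀ z, y < z → z ∉ I), Finset.filter_filter, Finset.filter_filter]
      congr 3
      ext I
      simp
    omega
  have hD : (DB X).card ≤ ∑ y ∈ My X,
      ((FB X).filter (fun I => y ∈ I ∧ ∃ z, y < z ∧ z ∈ I)).card := by
    refine le_trans (Finset.card_le_card ?_) Finset.card_biUnion_le
    intro I hI
    simp only [DB, Finset.mem_filter] at hI
    obtain ⟨hIF, y, hyM, z, hz, hzI⟩ := hI
    rw [Finset.mem_biUnion]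
    refine ⟨y, hyM, ?_⟩
    rw [Finset.mem_filter]
    exact ⟨hIF, ((mem_FB hX).1 hIF).1 hz.le hzI, z, hz, hzI⟩
  have hs : (My X).card * (FB X).card + ∑ y ∈ My X,
      ((FB X).filter (fun I => y ∈ I ∧ ∃ z, y < z ∧ z ∈ I)).card ≤
      2 * ∑ y ∈ My X, ((FB X).filter (fun I => y ∈ I)).card := by
    rw [Finset.mul_sum, ← smul_eq_mul, ← Finset.sum_const, ← Finset.sum_add_distrib]
    exact Finset.sum_le_sum hx
  rw [hsum]
  omega

/-- Ideals of `X` which contain all non-maximal elements are determined by their type. -/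
theorem injA {X : Set P} (hX : IsLowerSet X) :
    Set.InjOn (tS X) ((FA X \ DA X : Finset (Set P)) : Set (Set P)) := by
  have key : ∀ I J : Set P, I ∈ FA X \ DA X → J ∈ FA X \ DA X → tS X I = tS X J → I ⊆ J := by
    intro I J hI hJ h z hz
    rw [Finset.mem_sdiff] at hI hJ
    have hzX := ((mem_FA hX).1 hI.1).2 hz
    by_cases hzM : z ∈ Mx X
    · by_contra hzJ
      have : z ∈ tS X J := mem_tS.2 ⟨hzM, hzJ⟩
      rw [← h] at this
      exact (mem_tS.1 this).2 hz
    · obtain ⟨x, hx, hzx⟩ := exists_mx hzX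
      have hlt : z < x := lt_of_le_of_ne hzx (fun h => hzM (h ▸ hx))
      by_contra hzJ
      exact hJ.2 (Finset.mem_filter.2 ⟨hJ.1, x, hx, z, hlt, hzJ⟩)
  intro I hI J hJ h
  exact Set.Subset.antisymm (key I J hI hJ h) (key J I hJ hI h.symm)

theorem injB {X : Set P} (hX : IsLowerSet X) :
    Set.InjOn (tT X) ((FB X \ DB X : Finset (Set P)) : Set (Set P)) := by
  have key : ∀ I J : Set P, I ∈ FB X \ DB X → J ∈ FB X \ DB X → tT X I = tT X J → I ⊆ J := by
    intro I J hI hJ h z hz
    rw [Finset.mem_sdiff] at hI hJ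
    by_cases hzX : z ∈ X
    · exact ((mem_FB hX).1 hJ.1).2 hzX
    · by_cases hzM : z ∈ My X
      · have : z ∈ tT X I := mem_tT.2 ⟨hzM, hz⟩
        rw [h] at this
        exact (mem_tT.1 this).2
      · obtain ⟨y, hy, hyz⟩ := exists_my hzX
        have hlt : y < z := lt_of_le_of_ne hyz (fun h => hzM (h ▸ hy))
        exact absurd (Finset.mem_filter.2 ⟨hI.1, y, hy, z, hlt, hz⟩) hI.2
  intro I hI J hJ h
  exact Set.Subset.antisymm (key I J hI hJ h) (key J I hJ hI h.symm)

theorem cardA {X : Set P} (hX : IsLowerSet X) :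
    (FA X).card ≤ 2 ^ (Mx X).card + (DA X).card := by
  have h1 : (FA X \ DA X).card ≤ 2 ^ (Mx X).card := by
    rw [← Finset.card_powerset]
    apply Finset.card_le_card_of_injOn (tS X)
    · intro I _
      simp only [Finset.coe_powerset, Set.mem_preimage, Set.mem_powerset_iff, Finset.coe_subset]
      exact Finset.filter_subset _ _
    · exact injA hX
  have h2 : (FA X).card ≤ (FA X \ DA X).card + (DA X).card := by
    rw [Finset.card_sdiff_add_card]
    exact Finset.card_le_card Finset.subset_union_left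
  omega

theorem cardB {X : Set P} (hX : IsLowerSet X) :
    (FB X).card ≤ 2 ^ (My X).card + (DB X).card := by
  have h1 : (FB X \ DB X).card ≤ 2 ^ (My X).card := by
    rw [← Finset.card_powerset]
    apply Finset.card_le_card_of_injOn (tT X)
    · intro I _
      simp only [Finset.coe_powerset, Set.mem_preimage, Set.mem_powerset_iff, Finset.coe_subset]
      exact Finset.filter_subset _ _
    · exact injB hX
  have h2 : (FB X).card ≤ (FB X \ DB X).card + (DB X).card := by
    rw [Finset.card_sdiff_add_card]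
    exact Finset.card_le_card Finset.subset_union_left
  omega

/-- The number of ideals of `X` whose type has two elements. -/
theorem pairsA {X : Set P} (hX : IsLowerSet X) :
    ((FA X).filter (fun I => (tS X I).card = 2)).card ≤ (Mx X).card.choose 2 + (DA X).card := by
  have h1 : ((FA X \ DA X).filter (fun I => (tS X I).card = 2)).card ≤ (Mx X).card.choose 2 := by
    rw [← Finset.card_powersetCard]
    apply Finset.card_le_card_of_injOn (tS X)
    · intro I hI
      simp only [Finset.coe_filter, Set.mem_setOf_eq] at hI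
      simp only [Finset.mem_coe, Finset.mem_powersetCard]
      exact ⟨Finset.filter_subset _ _, hI.2⟩
    · exact (injA hX).mono (by intro I hI; simp only [Finset.coe_filter, Set.mem_setOf_eq] at hI; exact hI.1)
  have h2 : ((FA X).filter (fun I => (tS X I).card = 2)).card ≤
      ((FA X \ DA X).filter (fun I => (tS X I).card = 2)).card + (DA X).card := by
    refine le_trans (Finset.card_le_card ?_) (Finset.card_union_le _ _)
    intro I hI
    rw [Finset.mem_filter] at hI
    rw [Finset.mem_union, Finset.mem_filter, Finset.mem_sdiff]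
    by_cases hD : I ∈ DA X
    · exact Or.inr hD
    · exact Or.inl ⟨⟨hI.1, hD⟩, hI.2⟩
  omega

theorem pairsB {X : Set P} (hX : IsLowerSet X) :
    ((FB X).filter (fun I => (tT X I).card = 2)).card ≤ (My X).card.choose 2 + (DB X).card := by
  have h1 : ((FB X \ DB X).filter (fun I => (tT X I).card = 2)).card ≤ (My X).card.choose 2 := by
    rw [← Finset.card_powersetCard]
    apply Finset.card_le_card_of_injOn (tT X)
    · intro I hI
      simp only [Finset.coe_filter, Set.mem_setOf_eq] at hI
      simp only [Finset.mem_coe, Finset.mem_powersetCard]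
      exact ⟨Finset.filter_subset _ _, hI.2⟩
    · exact (injB hX).mono (by intro I hI; simp only [Finset.coe_filter, Set.mem_setOf_eq] at hI; exact hI.1)
  have h2 : ((FB X).filter (fun I => (tT X I).card = 2)).card ≤
      ((FB X \ DB X).filter (fun I => (tT X I).card = 2)).card + (DB X).card := by
    refine le_trans (Finset.card_le_card ?_) (Finset.card_union_le _ _)
    intro I hI
    rw [Finset.mem_filter] at hI
    rw [Finset.mem_union, Finset.mem_filter, Finset.mem_sdiff]
    by_cases hD : I ∈ DB X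
    · exact Or.inr hD
    · exact Or.inl ⟨⟨hI.1, hD⟩, hI.2⟩
  omega

/-- If two ideals of `X` have the type `{x}`, then there are many ideals in `DA`. -/
theorem singleA {X : Set P} (hX : IsLowerSet X) {x : P} (hx : x ∈ Mx X)
    (h : 2 ≤ ((FA X).filter (fun I => tS X I = {x})).card) :
    2 ^ ((Mx X).card - 1) ≤ (DA X).card := by
  obtain ⟨I, hI, J, hJ, hne⟩ := Finset.one_lt_card.1 h
  rw [Finset.mem_filter] at hI hJ
  have hex : ∃ K, K ∈ DA X ∧ tS X K = {x} := by
    by_contra hcon
    push Not at hcon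
    apply hne
    apply injA hX
    · rw [Finset.mem_coe, Finset.mem_sdiff]
      exact ⟨hI.1, fun h => hcon I h hI.2⟩
    · rw [Finset.mem_coe, Finset.mem_sdiff]
      exact ⟨hJ.1, fun h => hcon J h hJ.2⟩
    · rw [hI.2, hJ.2]
  obtain ⟨K, hK, hKx⟩ := hex
  rw [← Finset.card_erase_of_mem hx, ← Finset.card_powerset]
  apply Finset.card_le_card_of_injOn (fun E : Finset P => K \ (E : Set P))
  · intro E hE
    simp only [Finset.mem_coe, Finset.mem_powerset] at hE
    simp only [Finset.mem_coe, DA, Finset.mem_filter] at hK ⊢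
    obtain ⟨hKF, x', hx', z, hz, hzK⟩ := hK
    rw [mem_FA hX] at hKF ⊢
    refine ⟨⟨lower_sdiff hKF.1 hKF.2 (fun y hy => Finset.mem_of_mem_erase (hE hy)),
      fun z hz => hKF.2 hz.1⟩, x', hx', z, hz, fun h => hzK h.1⟩
  · intro E hE E' hE' hEE
    simp only [Finset.mem_coe, Finset.mem_powerset] at hE hE'
    have hmem : ∀ y ∈ (Mx X).erase x, y ∈ K := by
      intro y hy
      by_contra hyK
      have : y ∈ tS X K := mem_tS.2 ⟨Finset.mem_of_mem_erase hy, hyK⟩
      rw [hKx, Finset.mem_singleton] at this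
      exact (Finset.mem_erase.1 hy).1 this
    have hEE' : K \ (E : Set P) = K \ (E' : Set P) := hEE
    ext y
    by_cases hy : y ∈ (Mx X).erase x
    · have := Set.ext_iff.1 hEE' y
      simp only [Set.mem_diff, hmem y hy, true_and, Finset.mem_coe] at this
      exact not_iff_not.1 this
    · exact iff_of_false (fun h => hy (hE h)) (fun h => hy (hE' h))

theorem singleB {X : Set P} (hX : IsLowerSet X) {y : P} (hy : y ∈ My X)
    (h : 2 ≤ ((FB X).filter (fun I => tT X I = {y})).card) :
    2 ^ ((My X).card - 1) ≤ (DB X).card := by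
  obtain ⟨I, hI, J, hJ, hne⟩ := Finset.one_lt_card.1 h
  rw [Finset.mem_filter] at hI hJ
  have hex : ∃ K, K ∈ DB X ∧ tT X K = {y} := by
    by_contra hcon
    push Not at hcon
    apply hne
    apply injB hX
    · rw [Finset.mem_coe, Finset.mem_sdiff]
      exact ⟨hI.1, fun h => hcon I h hI.2⟩
    · rw [Finset.mem_coe, Finset.mem_sdiff]
      exact ⟨hJ.1, fun h => hcon J h hJ.2⟩
    · rw [hI.2, hJ.2]
  obtain ⟨K, hK, hKy⟩ := hex
  rw [← Finset.card_erase_of_mem hy, ← Finset.card_powerset]
  apply Finset.card_le_card_of_injOn (fun E : Finset P => K ∪ (E : Set P))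
  · intro E hE
    simp only [Finset.mem_coe, Finset.mem_powerset] at hE
    simp only [Finset.mem_coe, DB, Finset.mem_filter] at hK ⊢
    obtain ⟨hKF, y', hy', z, hz, hzK⟩ := hK
    rw [mem_FB hX] at hKF ⊢
    refine ⟨⟨lower_union hKF.1 hKF.2 (fun x hx => Finset.mem_of_mem_erase (hE hx)),
      fun z hz => Or.inl (hKF.2 hz)⟩, y', hy', z, hz, Or.inl hzK⟩
  · intro E hE E' hE' hEE
    simp only [Finset.mem_coe, Finset.mem_powerset] at hE hE'
    have hmem : ∀ x ∈ (My X).erase y, x ∉ K := by
      intro x hx hxK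
      have : x ∈ tT X K := mem_tT.2 ⟨Finset.mem_of_mem_erase hx, hxK⟩
      rw [hKy, Finset.mem_singleton] at this
      exact (Finset.mem_erase.1 hx).1 this
    have hEE' : K ∪ (E : Set P) = K ∪ (E' : Set P) := hEE
    ext x
    by_cases hx : x ∈ (My X).erase y
    · have := Set.ext_iff.1 hEE' x
      simp only [Set.mem_union, hmem x hx, false_or, Finset.mem_coe] at this
      exact this
    · exact iff_of_false (fun h => hx (hE h)) (fun h => hx (hE' h))

end Pool.Agent.Narrow
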