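import Mathlib

/-!
MP_a217f7_co.  Extremal posets of width at most five: posets with two levels of `w` elements.
-/

set_option autoImplicit false

namespace Pool.Agent.Narrow

/-- The order relation: a lower element `x` is below an upper element `y` if `e x y`. -/
def rel (w : ℕ) (e : Fin w → Fin w → Bool) (x y : Fin w × Bool) : Prop :=
  x = y ∨ (x.2 = false ∧ y.2 = true ∧ e x.1 y.1 = true)

instance (w : ℕ) (e : Fin w → Fin w → Bool) : DecidableRel (rel w e) := by
  intro x y
  unfold rel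
  infer_instance

/-- The poset with two levels. -/
@[reducible] def two (w : ℕ) (e : Fin w → Fin w → Bool) : PartialOrder (Fin w × Bool) where
  le := rel w e
  lt x y := rel w e x y ∧ ¬ rel w e y x
  lt_iff_le_not_ge _ _ := Iff.rfl
  le_refl x := Or.inl rfl
  le_trans x y z hxy hyz := by
    rcases hxy with rfl | ⟨h1, h2, h3⟩
    · exact hyz
    · rcases hyz with rfl | ⟨h4, h5, h6⟩
      · exact Or.inr ⟨h1, h2, h3⟩
      · rw [h2] at h4; exact absurd h4 (by decide)
  le_antisymm x y hxy hyx := by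
    rcases hxy with rfl | ⟨h1, h2, h3⟩
    · rfl
    · rcases hyx with rfl | ⟨h4, h5, h6⟩
      · rfl
      · rw [h2] at h4; exact absurd h4 (by decide)

theorem ncard_sets {V : Type} [Fintype V] (q' : Set V → Prop) (q : Finset V → Prop)
    [DecidablePred q] (h : ∀ T : Finset V, q' (T : Set V) ↔ q T) :
    Set.ncard {s : Set V | q' s} = (Finset.univ.filter (fun T : Finset V => q T)).card := by
  classical
  have : {s : Set V | q' s} = (fun T : Finset V => (T : Set V)) ''
      ((Finset.univ.filter (fun T : Finset V => q T) : Finset (Finset V)) : Set (Finset V)) := by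
    ext s
    simp only [Set.mem_image, Finset.coe_filter, Finset.mem_univ, true_and, Set.mem_ofPred_eq]
    constructor
    · intro hs
      refine ⟨s.toFinset, ?_, by simp⟩
      rw [← h]
      simpa using hs
    · rintro ⟨T, h1, rfl⟩
      exact (h T).2 h1
  rw [this, Set.ncard_image_of_injective _ Finset.coe_injective, Set.ncard_coe_finset]

/-- Lower sets as finsets. -/
def low (w : ℕ) (e : Fin w → Fin w → Bool) (T : Finset (Fin w × Bool)) : Prop :=
  ∀ i j : Fin w, e i j = true → (j, true) ∈ T → (i, false) ∈ T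

instance (w : ℕ) (e : Fin w → Fin w → Bool) : DecidablePred (low w e) := by
  intro T
  unfold low
  infer_instance

theorem lower_iff (w : ℕ) (e : Fin w → Fin w → Bool) (T : Finset (Fin w × Bool)) :
    @IsLowerSet (Fin w × Bool) (two w e).toLE (T : Set (Fin w × Bool)) ↔ low w e T := by
  constructor
  · intro h i j hij hj
    exact h (a := (j, true)) (b := (i, false)) (Or.inr ⟨rfl, rfl, hij⟩) hj
  · intro h a b hba ha
    rcases hba with rfl | ⟨h1, h2, h3⟩
    · exact ha
    · obtain ⟨b1, b2⟩ := b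
      obtain ⟨a1, a2⟩ := a
      simp only at h1 h2 h3
      subst h1 h2
      exact h b1 a1 h3 ha

/-- The complete bipartite case. -/
def eAll (w : ℕ) : Fin w → Fin w → Bool := fun _ _ => true

/-- The complete bipartite graph without a perfect matching. -/
def eNe (w : ℕ) : Fin w → Fin w → Bool := fun i j => decide (i ≠ j)

theorem width_aux (w : ℕ) (e : Fin w → Fin w → Bool)
    (h : ∀ T : Finset (Fin w × Bool), (∀ i j, (i, false) ∈ T → (j, true) ∈ T → e i j = false) →
      T.card ≤ w) (A : Finset (Fin w × Bool))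
    (hA : IsAntichain (two w e).le (A : Set (Fin w × Bool))) : A.card ≤ w := by
  apply h
  intro i j hi hj
  by_contra hcon
  have hne : ((i, false) : Fin w × Bool) ≠ (j, true) := by simp
  have := hA (Finset.mem_coe.2 hi) (Finset.mem_coe.2 hj) hne
  exact this (Or.inr ⟨rfl, rfl, by simpa using hcon⟩)

theorem c1 : (Finset.univ.filter (fun T => low 1 (eAll 1) T)).card = 3 := by decide +kernel
theorem c2 : (Finset.univ.filter (fun T => low 2 (eAll 2) T)).card = 7 := by decide +kernel
theorem c3 : (Finset.univ.filter (fun T => low 3 (eAll 3) T)).card = 15 := by decide +kernel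
theorem c4 : (Finset.univ.filter (fun T => low 4 (eNe 4) T)).card = 35 := by decide +kernel
theorem c5 : (Finset.univ.filter (fun T => low 5 (eNe 5) T)).card = 68 := by decide +kernel

theorem d1 : ∀ x : Fin 1 × Bool, (Finset.univ.filter (fun T => low 1 (eAll 1) T ∧ x ∈ T)).card =
    if x.2 then 1 else 2 := by decide +kernel
theorem d2 : ∀ x : Fin 2 × Bool, (Finset.univ.filter (fun T => low 2 (eAll 2) T ∧ x ∈ T)).card =
    if x.2 then 2 else 5 := by decide +kernel
theorem d3 : ∀ x : Fin 3 × Bool, (Finset.univ.filter (fun T => low 3 (eAll 3) T ∧ x ∈ T)).card =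
    if x.2 then 4 else 11 := by decide +kernel
theorem d4 : ∀ x : Fin 4 × Bool, (Finset.univ.filter (fun T => low 4 (eNe 4) T ∧ x ∈ T)).card =
    if x.2 then 9 else 26 := by decide +kernel
theorem d5 : ∀ x : Fin 5 × Bool, (Finset.univ.filter (fun T => low 5 (eNe 5) T ∧ x ∈ T)).card =
    if x.2 then 17 else 51 := by decide +kernel

theorem w1 : ∀ T : Finset (Fin 1 × Bool),
    (∀ i j, (i, false) ∈ T → (j, true) ∈ T → eAll 1 i j = false) → T.card ≤ 1 := by
  decide +kernel
theorem w2 : ∀ T : Finset (Fin 2 × Bool),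
    (∀ i j, (i, false) ∈ T → (j, true) ∈ T → eAll 2 i j = false) → T.card ≤ 2 := by
  decide +kernel
theorem w3 : ∀ T : Finset (Fin 3 × Bool),
    (∀ i j, (i, false) ∈ T → (j, true) ∈ T → eAll 3 i j = false) → T.card ≤ 3 := by
  decide +kernel
theorem w4 : ∀ T : Finset (Fin 4 × Bool),
    (∀ i j, (i, false) ∈ T → (j, true) ∈ T → eNe 4 i j = false) → T.card ≤ 4 := by
  decide +kernel
theorem w5 : ∀ T : Finset (Fin 5 × Bool),
    (∀ i j, (i, false) ∈ T → (j, true) ∈ T → eNe 5 i j = false) → T.card ≤ 5 := by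
  decide +kernel

theorem extremal (w : ℕ) (δ : ℝ)
    (hw : (w = 1 ∧ δ = 1 / 3) ∨ (w = 2 ∧ δ = 2 / 7) ∨ (w = 3 ∧ δ = 4 / 15) ∨
      (w = 4 ∧ δ = 9 / 35) ∨ (w = 5 ∧ δ = 1 / 4)) :
    ∃ (P : Type) (_ : Fintype P) (_ : Nonempty P) (_ : PartialOrder P),
      (∀ A : Finset P, IsAntichain (· ≤ ·) (A : Set P) → A.card ≤ w) ∧
      ∀ x : P,
        ((Set.ncard {s : Set P | IsLowerSet s ∧ x ∈ s} : ℕ) : ℝ) ≤
          δ * ((Set.ncard {s : Set P | IsLowerSet s} : ℕ) : ℝ) ∨
        (1 - δ) * ((Set.ncard {s : Set P | IsLowerSet s} : ℕ) : ℝ) ≤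
          ((Set.ncard {s : Set P | IsLowerSet s ∧ x ∈ s} : ℕ) : ℝ) := by
  classical
  have key : ∀ (w : ℕ) (e : Fin w → Fin w → Bool) (hw0 : 0 < w) (N a b : ℕ) (δ : ℝ),
      (∀ T : Finset (Fin w × Bool), (∀ i j, (i, false) ∈ T → (j, true) ∈ T → e i j = false) →
        T.card ≤ w) →
      (Finset.univ.filter (fun T => low w e T)).card = N →
      (∀ x : Fin w × Bool, (Finset.univ.filter (fun T => low w e T ∧ x ∈ T)).card =
        if x.2 then a else b) →
      (a : ℝ) ≤ δ * N → (1 - δ) * N ≤ b →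
      ∃ (P : Type) (_ : Fintype P) (_ : Nonempty P) (_ : PartialOrder P),
        (∀ A : Finset P, IsAntichain (· ≤ ·) (A : Set P) → A.card ≤ w) ∧
        ∀ x : P,
          ((Set.ncard {s : Set P | IsLowerSet s ∧ x ∈ s} : ℕ) : ℝ) ≤
            δ * ((Set.ncard {s : Set P | IsLowerSet s} : ℕ) : ℝ) ∨
          (1 - δ) * ((Set.ncard {s : Set P | IsLowerSet s} : ℕ) : ℝ) ≤
            ((Set.ncard {s : Set P | IsLowerSet s ∧ x ∈ s} : ℕ) : ℝ) := by
    intro w e hw0 N a b δ h1 h2 h3 h4 h5
    have : Nonempty (Fin w) := ⟨⟨0, hw0⟩⟩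
    refine ⟨Fin w × Bool, inferInstance, inferInstance, two w e, width_aux w e h1, ?_⟩
    intro x
    rw [ncard_sets (fun s => @IsLowerSet _ (two w e).toLE s) (low w e) (lower_iff w e),
      ncard_sets (fun s => @IsLowerSet _ (two w e).toLE s ∧ x ∈ s) (fun T => low w e T ∧ x ∈ T)
        (fun T => by rw [lower_iff]; simp), h2]
    have := h3 x
    by_cases hx : x.2 = true
    · rw [if_pos hx] at this
      left
      convert h4 using 2
    · rw [if_neg hx] at this
      right
      convert h5 using 2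
  rcases hw with ⟨rfl, rfl⟩ | ⟨rfl, rfl⟩ | ⟨rfl, rfl⟩ | ⟨rfl, rfl⟩ | ⟨rfl, rfl⟩
  · exact key 1 _ (by norm_num) _ _ _ _ w1 c1 d1 (by norm_num) (by norm_num)
  · exact key 2 _ (by norm_num) _ _ _ _ w2 c2 d2 (by norm_num) (by norm_num)
  · exact key 3 _ (by norm_num) _ _ _ _ w3 c3 d3 (by norm_num) (by norm_num)
  · exact key 4 _ (by norm_num) _ _ _ _ w4 c4 d4 (by norm_num) (by norm_num)
  · exact key 5 _ (by norm_num) _ _ _ _ w5 c5 d5 (by norm_num) (by norm_num)

end Pool.Agent.Narrow
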