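import Pool.Agent.Narrow.Excess

/-!
MP_a217f7_co.  The ideals on one side of a cut, grouped by their parts away from the cut.
-/

set_option autoImplicit false

namespace Pool.Agent.Narrow

open Classical

theorem fib_sum {α γ : Type} (D : Finset α) (κ : α → γ) (Q : α → Prop) [DecidablePred Q]
    (a b : ℕ)
    (h : ∀ J ∈ D.image κ, a * ((D.filter (fun I => κ I = J)).filter Q).card ≤
      b * (D.filter (fun I => κ I = J)).card) :
    a * (D.filter Q).card ≤ b * D.card := by
  have h1 : D.card = ∑ J ∈ D.image κ, (D.filter (fun I => κ I = J)).card :=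
    Finset.card_eq_sum_card_fiberwise (fun I hI => Finset.mem_coe.2 (Finset.mem_image_of_mem κ hI))
  have h2 : (D.filter Q).card =
      ∑ J ∈ D.image κ, ((D.filter Q).filter (fun I => κ I = J)).card :=
    Finset.card_eq_sum_card_fiberwise
      (fun I hI => Finset.mem_coe.2 (Finset.mem_image_of_mem κ
        (Finset.mem_of_mem_filter I hI)))
  rw [h1, h2, Finset.mul_sum, Finset.mul_sum]
  apply Finset.sum_le_sum
  intro J hJ
  rw [Finset.filter_comm]
  exact h J hJ

/-- Every fibre is a cube. -/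
def Fib {α β γ : Type} (D : Finset α) (κ : α → γ) (τ : α → Finset β) (M : Finset β) : Prop :=
  ∀ J ∈ D.image κ, ∃ C : Finset β, C ⊆ M ∧ C.Nonempty ∧
    (∀ I ∈ D, κ I = J → C ⊆ τ I ∧ τ I ⊆ M) ∧
    (∀ I ∈ D, ∀ I' ∈ D, κ I = J → κ I' = J → τ I = τ I' → I = I') ∧
    2 ^ (M.card - C.card) ≤ (D.filter (fun I => κ I = J)).card

theorem fib_single {α β γ : Type} {D : Finset α} {κ : α → γ} {τ : α → Finset β} {M : Finset β}
    (h : Fib D κ τ M) (x : β) :
    2 ^ (M.card - 1) * (D.filter (fun I => τ I = {x})).card ≤ D.card := by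
  have := fib_sum D κ (fun I => τ I = {x}) (2 ^ (M.card - 1)) 1 ?_
  · simpa using this
  intro J hJ
  obtain ⟨C, hCM, hC, h1, h2, h3⟩ := h J hJ
  by_cases hne : ((D.filter (fun I => κ I = J)).filter (fun I => τ I = {x})).card = 0
  · rw [hne]; simp
  · have hpos : 0 < ((D.filter (fun I => κ I = J)).filter (fun I => τ I = {x})).card :=
      Nat.pos_of_ne_zero hne
    obtain ⟨I, hI⟩ := Finset.card_pos.1 hpos
    simp only [Finset.mem_filter] at hI
    have hCx : C ⊆ {x} := by
      rw [← hI.2]; exact (h1 I hI.1.1 hI.1.2).1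
    have hC1 : C.card = 1 := by
      have h4 := Finset.card_le_card hCx
      have h5 := Finset.card_pos.2 hC
      rw [Finset.card_singleton] at h4
      omega
    have hle : ((D.filter (fun I => κ I = J)).filter (fun I => τ I = {x})).card ≤ 1 := by
      apply Finset.card_le_one.2
      intro I hI I' hI'
      simp only [Finset.mem_filter] at hI hI'
      exact h2 I hI.1.1 I' hI'.1.1 hI.1.2 hI'.1.2 (hI.2.trans hI'.2.symm)
    rw [hC1] at h3
    rw [one_mul]
    calc _ ≤ 2 ^ (M.card - 1) * 1 := Nat.mul_le_mul_left _ hle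
      _ ≤ _ := by rw [mul_one]; exact h3

theorem fib_pair_aux {α β γ : Type} {D : Finset α} {κ : α → γ} {τ : α → Finset β}
    {M : Finset β} (h : Fib D κ τ M) {J : γ} (hJ : J ∈ D.image κ) :
    ∃ n : ℕ, 1 ≤ n ∧ 2 ^ (M.card - n) ≤ (D.filter (fun I => κ I = J)).card ∧
      ((D.filter (fun I => κ I = J)).filter (fun I => (τ I).card = 2)).card ≤
        (if n ≤ 2 then (M.card - n).choose (2 - n) else 0) := by
  obtain ⟨C, hCM, hC, h1, h2, h3⟩ := h J hJ
  refine ⟨C.card, Finset.card_pos.2 hC, h3, ?_⟩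
  by_cases hn : C.card ≤ 2
  · rw [if_pos hn, ← Finset.card_sdiff_of_subset hCM, ← Finset.card_powersetCard]
    apply Finset.card_le_card_of_injOn (fun I => τ I \ C)
    · intro I hI
      simp only [Finset.coe_filter, Finset.mem_filter, Set.mem_ofPred_eq] at hI
      simp only [Finset.mem_coe, Finset.mem_powersetCard]
      obtain ⟨h4, h5⟩ := h1 I hI.1.1 hI.1.2
      refine ⟨Finset.sdiff_subset_sdiff h5 le_rfl, ?_⟩
      rw [Finset.card_sdiff_of_subset h4, hI.2]
    · intro I hI I' hI' he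
      simp only [Finset.coe_filter, Finset.mem_filter, Set.mem_ofPred_eq] at hI hI'
      apply h2 I hI.1.1 I' hI'.1.1 hI.1.2 hI'.1.2
      have h4 := (h1 I hI.1.1 hI.1.2).1
      have h5 := (h1 I' hI'.1.1 hI'.1.2).1
      have he' : τ I \ C = τ I' \ C := he
      rw [← Finset.sdiff_union_of_subset h4, ← Finset.sdiff_union_of_subset h5, he']
  · rw [if_neg hn]
    apply le_of_eq
    rw [Finset.card_eq_zero, Finset.filter_eq_empty_iff]
    intro I hI hcard
    rw [Finset.mem_filter] at hI
    have := Finset.card_le_card (h1 I hI.1 hI.2).1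
    omega

theorem fib_pair5 {α β γ : Type} {D : Finset α} {κ : α → γ} {τ : α → Finset β} {M : Finset β}
    (h : Fib D κ τ M) (hM : M.card = 5) :
    4 * (D.filter (fun I => (τ I).card = 2)).card ≤ D.card := by
  have := fib_sum D κ (fun I => (τ I).card = 2) 4 1 ?_
  · simpa using this
  intro J hJ
  obtain ⟨n, hn, h1, h2⟩ := fib_pair_aux h hJ
  rw [hM] at h1 h2
  by_cases hn2 : n ≤ 2
  · rw [if_pos hn2] at h2
    have h3 : n = 1 ∨ n = 2 := by omega
    rcases h3 with rfl | rfl
    · norm_num at h1 h2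
      omega
    · norm_num at h1 h2
      omega
  · rw [if_neg hn2] at h2
    omega

theorem fib_pair4 {α β γ : Type} {D : Finset α} {κ : α → γ} {τ : α → Finset β} {M : Finset β}
    (h : Fib D κ τ M) (hM : M.card = 4) :
    8 * (D.filter (fun I => (τ I).card = 2)).card ≤ 3 * D.card := by
  refine fib_sum D κ (fun I => (τ I).card = 2) 8 3 ?_
  intro J hJ
  obtain ⟨n, hn, h1, h2⟩ := fib_pair_aux h hJ
  rw [hM] at h1 h2
  by_cases hn2 : n ≤ 2
  · rw [if_pos hn2] at h2
    have h3 : n = 1 ∨ n = 2 := by omega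
    rcases h3 with rfl | rfl
    · norm_num at h1 h2
      omega
    · norm_num at h1 h2
      omega
  · rw [if_neg hn2] at h2
    omega

variable {P : Type} [Fintype P] [PartialOrder P]

theorem not_mx_of_lt {X : Set P} {z x : P} (hzx : z < x) (hx : x ∈ X) : z ∉ Mx X := by
  intro hz
  have := (mem_Mx.1 hz).2 hx hzx.le
  exact absurd (lt_of_lt_of_le hzx this) (lt_irrefl _)

theorem not_my_of_lt {X : Set P} {z y : P} (hyz : y < z) (hy : y ∉ X) : z ∉ My X := by
  intro hz
  have := (mem_My.1 hz).2 hy hyz.le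
  exact absurd (lt_of_lt_of_le hyz this) (lt_irrefl _)

theorem fibA {X : Set P} (hX : IsLowerSet X) :
    Fib (DA X) (fun I => I \ ((Mx X : Finset P) : Set P)) (tS X) (Mx X) := by
  intro J hJ
  obtain ⟨I₀, hI₀, hJ0⟩ := Finset.mem_image.1 hJ
  have hJ0' : I₀ \ ((Mx X : Finset P) : Set P) = J := hJ0
  have hI₀' := hI₀
  simp only [DA, Finset.mem_filter] at hI₀'
  obtain ⟨hF₀, x₀, hx₀, z₀, hz₀, hzI₀⟩ := hI₀'
  rw [mem_FA hX] at hF₀
  have hJsub : ∀ z ∈ J, z ∈ I₀ ∧ z ∉ Mx X := by
    intro z hz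
    rw [← hJ0'] at hz
    exact ⟨hz.1, fun h => hz.2 (Finset.mem_coe.2 h)⟩
  have hJmem : ∀ z, z ∈ I₀ → z ∉ Mx X → z ∈ J := by
    intro z h1 h2
    rw [← hJ0']
    exact ⟨h1, fun h => h2 (Finset.mem_coe.1 h)⟩
  refine ⟨(Mx X).filter (fun x => ∃ z, z < x ∧ z ∉ J), Finset.filter_subset _ _,
    ⟨x₀, Finset.mem_filter.2 ⟨hx₀, z₀, hz₀, fun h => hzI₀ (hJsub _ h).1⟩⟩, ?_, ?_, ?_⟩
  · intro I hI hIJ
    have hIJ' : I \ ((Mx X : Finset P) : Set P) = J := hIJ
    refine ⟨?_, Finset.filter_subset _ _⟩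
    intro x hx
    obtain ⟨hxM, z, hzx, hzJ⟩ := Finset.mem_filter.1 hx
    refine mem_tS.2 ⟨hxM, ?_⟩
    intro hxI
    simp only [DA, Finset.mem_filter] at hI
    have hF := (mem_FA hX).1 hI.1
    apply hzJ
    rw [← hIJ']
    exact ⟨hF.1 hzx.le hxI, fun h => not_mx_of_lt hzx (Mx_sub hxM) (Finset.mem_coe.1 h)⟩
  · have key : ∀ I I' : Set P, I \ ((Mx X : Finset P) : Set P) = J →
        I' \ ((Mx X : Finset P) : Set P) = J → tS X I = tS X I' → I ⊆ I' := by
      intro I I' h1 h2 h3 z hz
      by_cases hzM : z ∈ Mx X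
      · by_contra hzI
        have : z ∈ tS X I' := mem_tS.2 ⟨hzM, hzI⟩
        rw [← h3] at this
        exact (mem_tS.1 this).2 hz
      · have : z ∈ J := by
          rw [← h1]; exact ⟨hz, fun h => hzM (Finset.mem_coe.1 h)⟩
        rw [← h2] at this
        exact this.1
    intro I _ I' _ h1 h2 h3
    exact Set.Subset.antisymm (key I I' h1 h2 h3) (key I' I h2 h1 h3.symm)
  · set C := (Mx X).filter (fun x => ∃ z, z < x ∧ z ∉ J) with hCdef
    have hCM : C ⊆ Mx X := Finset.filter_subset _ _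
    rw [← Finset.card_sdiff_of_subset hCM, ← Finset.card_powerset]
    apply Finset.card_le_card_of_injOn
      (fun K : Finset P => J ∪ (((Mx X \ C) \ K : Finset P) : Set P))
    · intro K hK
      simp only [Finset.coe_filter, Set.mem_ofPred_eq, DA, Finset.mem_filter]
      refine ⟨⟨(mem_FA hX).2 ⟨?_, ?_⟩, x₀, hx₀, z₀, hz₀, ?_⟩, ?_⟩
      · intro a b hba ha
        rcases ha with ha | ha
        · obtain ⟨h1, h2⟩ := hJsub a ha
          left
          apply hJmem b (hF₀.1 hba h1)
          intro hbM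
          have := (mem_Mx.1 hbM).2 (hF₀.2 h1) hba
          exact h2 ((le_antisymm hba this) ▸ hbM)
        · rcases hba.eq_or_lt with rfl | hlt
          · exact Or.inr ha
          · left
            rw [Finset.mem_coe, Finset.mem_sdiff, Finset.mem_sdiff] at ha
            by_contra hbJ
            exact ha.1.2 (Finset.mem_filter.2 ⟨ha.1.1, b, hlt, hbJ⟩)
      · intro z hz
        rcases hz with hz | hz
        · exact hF₀.2 (hJsub z hz).1
        · rw [Finset.mem_coe, Finset.mem_sdiff, Finset.mem_sdiff] at hz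
          exact Mx_sub hz.1.1
      · intro hz
        rcases hz with hz | hz
        · exact hzI₀ (hJsub _ hz).1
        · rw [Finset.mem_coe, Finset.mem_sdiff, Finset.mem_sdiff] at hz
          exact not_mx_of_lt hz₀ (Mx_sub hx₀) hz.1.1
      · ext z
        constructor
        · rintro ⟨hz | hz, hzM⟩
          · exact hz
          · rw [Finset.mem_coe, Finset.mem_sdiff, Finset.mem_sdiff] at hz
            exact absurd (Finset.mem_coe.2 hz.1.1) hzM
        · intro hz
          exact ⟨Or.inl hz, fun h => (hJsub z hz).2 (Finset.mem_coe.1 h)⟩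
    · intro K hK K' hK' he
      simp only [Finset.mem_coe, Finset.mem_powerset] at hK hK'
      have he' : J ∪ (((Mx X \ C) \ K : Finset P) : Set P) =
        J ∪ (((Mx X \ C) \ K' : Finset P) : Set P) := he
      ext y
      by_cases hy : y ∈ Mx X \ C
      · have hyJ : y ∉ J := fun h => (hJsub y h).2 (Finset.mem_sdiff.1 hy).1
        have := Set.ext_iff.1 he' y
        simp only [Set.mem_union, hyJ, false_or, Finset.mem_coe, Finset.mem_sdiff (s := Mx X \ C),
          hy, true_and] at this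
        exact not_iff_not.1 this
      · exact iff_of_false (fun h => hy (hK h)) (fun h => hy (hK' h))

theorem fibB {X : Set P} (hX : IsLowerSet X) :
    Fib (DB X) (fun I => I \ ((My X : Finset P) : Set P)) (tT X) (My X) := by
  intro J hJ
  obtain ⟨I₀, hI₀, hJ0⟩ := Finset.mem_image.1 hJ
  have hJ0' : I₀ \ ((My X : Finset P) : Set P) = J := hJ0
  have hI₀' := hI₀
  simp only [DB, Finset.mem_filter] at hI₀'
  obtain ⟨hF₀, y₀, hy₀, z₀, hz₀, hzI₀⟩ := hI₀'
  rw [mem_FB hX] at hF₀
  have hJsub : ∀ z ∈ J, z ∈ I₀ ∧ z ∉ My X := by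
    intro z hz
    rw [← hJ0'] at hz
    exact ⟨hz.1, fun h => hz.2 (Finset.mem_coe.2 h)⟩
  have hJmem : ∀ z, z ∈ I₀ → z ∉ My X → z ∈ J := by
    intro z h1 h2
    rw [← hJ0']
    exact ⟨h1, fun h => h2 (Finset.mem_coe.1 h)⟩
  have hXJ : ∀ z ∈ X, z ∈ J := fun z hz => hJmem z (hF₀.2 hz) (fun h => My_sub h hz)
  have hz₀J : z₀ ∈ J := hJmem z₀ hzI₀ (not_my_of_lt hz₀ (My_sub hy₀))
  refine ⟨(My X).filter (fun y => ∃ z, y < z ∧ z ∈ J), Finset.filter_subset _ _,
    ⟨y₀, Finset.mem_filter.2 ⟨hy₀, z₀, hz₀, hz₀J⟩⟩, ?_, ?_, ?_⟩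
  · intro I hI hIJ
    have hIJ' : I \ ((My X : Finset P) : Set P) = J := hIJ
    refine ⟨?_, Finset.filter_subset _ _⟩
    intro y hy
    obtain ⟨hyM, z, hyz, hzJ⟩ := Finset.mem_filter.1 hy
    simp only [DB, Finset.mem_filter] at hI
    have hF := (mem_FB hX).1 hI.1
    rw [← hIJ'] at hzJ
    exact mem_tT.2 ⟨hyM, hF.1 hyz.le hzJ.1⟩
  · have key : ∀ I I' : Set P, I \ ((My X : Finset P) : Set P) = J →
        I' \ ((My X : Finset P) : Set P) = J → tT X I = tT X I' → I ⊆ I' := by
      intro I I' h1 h2 h3 z hz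
      by_cases hzM : z ∈ My X
      · have : z ∈ tT X I := mem_tT.2 ⟨hzM, hz⟩
        rw [h3] at this
        exact (mem_tT.1 this).2
      · have : z ∈ J := by
          rw [← h1]; exact ⟨hz, fun h => hzM (Finset.mem_coe.1 h)⟩
        rw [← h2] at this
        exact this.1
    intro I _ I' _ h1 h2 h3
    exact Set.Subset.antisymm (key I I' h1 h2 h3) (key I' I h2 h1 h3.symm)
  · set C := (My X).filter (fun y => ∃ z, y < z ∧ z ∈ J) with hCdef
    have hCM : C ⊆ My X := Finset.filter_subset _ _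
    rw [← Finset.card_sdiff_of_subset hCM, ← Finset.card_powerset]
    apply Finset.card_le_card_of_injOn
      (fun K : Finset P => J ∪ ((C : Set P) ∪ (K : Set P)))
    · intro K hK
      simp only [Finset.mem_coe, Finset.mem_powerset] at hK
      simp only [Finset.coe_filter, Set.mem_ofPred_eq, DB, Finset.mem_filter]
      have hCK : ∀ z, z ∈ (C : Set P) ∪ (K : Set P) → z ∈ My X := by
        intro z hz
        rcases hz with hz | hz
        · exact hCM (Finset.mem_coe.1 hz)
        · exact (Finset.mem_sdiff.1 (hK (Finset.mem_coe.1 hz))).1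
      refine ⟨⟨(mem_FB hX).2 ⟨?_, fun z hz => Or.inl (hXJ z hz)⟩, y₀, hy₀, z₀, hz₀,
        Or.inl hz₀J⟩, ?_⟩
      · intro a b hba ha
        rcases ha with ha | ha
        · obtain ⟨h1, h2⟩ := hJsub a ha
          by_cases hbM : b ∈ My X
          · right
            left
            apply Finset.mem_coe.2
            refine Finset.mem_filter.2 ⟨hbM, a, lt_of_le_of_ne hba ?_, ha⟩
            intro h
            exact h2 (h ▸ hbM)
          · exact Or.inl (hJmem b (hF₀.1 hba h1) hbM)
        · rcases hba.eq_or_lt with rfl | hlt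
          · exact Or.inr ha
          · left
            apply hXJ
            by_contra hbX
            exact not_my_of_lt hlt hbX (hCK a ha)
      · ext z
        constructor
        · rintro ⟨hz | hz, hzM⟩
          · exact hz
          · exact absurd (Finset.mem_coe.2 (hCK z hz)) hzM
        · intro hz
          exact ⟨Or.inl hz, fun h => (hJsub z hz).2 (Finset.mem_coe.1 h)⟩
    · intro K hK K' hK' he
      simp only [Finset.mem_coe, Finset.mem_powerset] at hK hK'
      have he' : J ∪ ((C : Set P) ∪ (K : Set P)) = J ∪ ((C : Set P) ∪ (K' : Set P)) := he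
      ext y
      by_cases hy : y ∈ My X \ C
      · have hyJ : y ∉ J := fun h => (hJsub y h).2 (Finset.mem_sdiff.1 hy).1
        have hyC : y ∉ C := (Finset.mem_sdiff.1 hy).2
        have := Set.ext_iff.1 he' y
        simp only [Set.mem_union, hyJ, false_or, Finset.mem_coe, hyC] at this
        exact this
      · exact iff_of_false (fun h => hy (hK h)) (fun h => hy (hK' h))

end Pool.Agent.Narrow
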