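import Pool.Agent.Narrow.Pairs

/-!
MP_a217f7_co.  Inequalities for the numbers of ideals of the types (1,1), (1,2), (2,1).
-/

set_option autoImplicit false

namespace Pool.Agent.Narrow

open Classical

variable {P : Type} [Fintype P] [PartialOrder P]

/-- Ideals of `X` of type `{i}`. -/
noncomputable def A1 (X : Set P) (i : P) : Finset (Set P) :=
  (FA X).filter (fun I => tS X I = {i})

/-- Ideals containing `X` of type `{j}`. -/
noncomputable def B1 (X : Set P) (j : P) : Finset (Set P) :=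
  (FB X).filter (fun I => tT X I = {j})

/-- Ideals of type `({i}, {j, j'})`. -/
noncomputable def r12 (X : Set P) (i j j' : P) : Finset (Set P) :=
  (Fam P).filter (fun I => tS X I = {i} ∧ tT X I = {j, j'})

/-- Ideals of type `({i, i'}, {j})`. -/
noncomputable def r21 (X : Set P) (i i' j : P) : Finset (Set P) :=
  (Fam P).filter (fun I => tS X I = {i, i'} ∧ tT X I = {j})

/-- Ideals of type (1,2). -/
noncomputable def R12 (X : Set P) : Finset (Set P) :=
  (Fam P).filter (fun I => (tS X I).card = 1 ∧ (tT X I).card = 2)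

/-- Ideals of type (2,1). -/
noncomputable def R21 (X : Set P) : Finset (Set P) :=
  (Fam P).filter (fun I => (tS X I).card = 2 ∧ (tT X I).card = 1)

theorem daykin_row (X : Set P) {i j j' : P} (hj : j ≠ j') :
    (Fij X i j).card * (Fij X i j').card ≤ (A1 X i).card * (r12 X i j j').card := by
  refine le_trans (Finset.le_card_infs_mul_card_sups _ _) ?_
  apply Nat.mul_le_mul
  · apply Finset.card_le_card
    intro K hK
    rw [Finset.mem_infs] at hK
    obtain ⟨I, hI, J, hJ, rfl⟩ := hK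
    simp only [Fij, Finset.mem_filter, mem_Fam] at hI hJ
    have e : I ⊓ J = I ∩ J := rfl
    have hT : tT X (I ∩ J) = ∅ := by
      rw [tT_inter, hI.2.2, hJ.2.2]
      ext z
      simp only [Finset.mem_inter, Finset.mem_singleton, Finset.notMem_empty, iff_false, not_and]
      rintro rfl rfl
      exact hj rfl
    simp only [A1, FA, Finset.mem_filter, mem_Fam, e]
    refine ⟨⟨hI.1.inter hJ.1, hT⟩, ?_⟩
    rw [tS_inter, hI.2.1, hJ.2.1, Finset.union_self]
  · apply Finset.card_le_card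
    intro K hK
    rw [Finset.mem_sups] at hK
    obtain ⟨I, hI, J, hJ, rfl⟩ := hK
    simp only [Fij, Finset.mem_filter, mem_Fam] at hI hJ
    have e : I ⊔ J = I ∪ J := rfl
    simp only [r12, Finset.mem_filter, mem_Fam, e]
    refine ⟨hI.1.union hJ.1, ?_, ?_⟩
    · rw [tS_union, hI.2.1, hJ.2.1, Finset.inter_self]
    · rw [tT_union, hI.2.2, hJ.2.2]
      ext z
      simp

theorem daykin_col (X : Set P) {i i' j : P} (hi : i ≠ i') :
    (Fij X i j).card * (Fij X i' j).card ≤ (B1 X j).card * (r21 X i i' j).card := by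
  rw [mul_comm (B1 X j).card]
  refine le_trans (Finset.le_card_infs_mul_card_sups _ _) ?_
  apply Nat.mul_le_mul
  · apply Finset.card_le_card
    intro K hK
    rw [Finset.mem_infs] at hK
    obtain ⟨I, hI, J, hJ, rfl⟩ := hK
    simp only [Fij, Finset.mem_filter, mem_Fam] at hI hJ
    have e : I ⊓ J = I ∩ J := rfl
    simp only [r21, Finset.mem_filter, mem_Fam, e]
    refine ⟨hI.1.inter hJ.1, ?_, ?_⟩
    · rw [tS_inter, hI.2.1, hJ.2.1]
      ext z
      simp
    · rw [tT_inter, hI.2.2, hJ.2.2, Finset.inter_self]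
  · apply Finset.card_le_card
    intro K hK
    rw [Finset.mem_sups] at hK
    obtain ⟨I, hI, J, hJ, rfl⟩ := hK
    simp only [Fij, Finset.mem_filter, mem_Fam] at hI hJ
    have e : I ⊔ J = I ∪ J := rfl
    have hS : tS X (I ∪ J) = ∅ := by
      rw [tS_union, hI.2.1, hJ.2.1]
      ext z
      simp only [Finset.mem_inter, Finset.mem_singleton, Finset.notMem_empty, iff_false, not_and]
      rintro rfl rfl
      exact hi rfl
    simp only [B1, FB, Finset.mem_filter, mem_Fam, e]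
    refine ⟨⟨hI.1.union hJ.1, hS⟩, ?_⟩
    rw [tT_union, hI.2.2, hJ.2.2, Finset.union_self]

theorem daykin_cell {X : Set P} (hX : IsLowerSet X) (i j : P) :
    (Fij X i j).card ≤ (A1 X i).card * (B1 X j).card := by
  have h := Finset.le_card_infs_mul_card_sups (Fij X i j) {X}
  rw [Finset.card_singleton, mul_one] at h
  refine le_trans h ?_
  have hSX : tS X X = ∅ := tS_of_sub le_rfl
  have hTX : tT X X = ∅ := tT_of_sub le_rfl
  apply Nat.mul_le_mul
  · apply Finset.card_le_card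
    intro K hK
    rw [Finset.mem_infs] at hK
    obtain ⟨I, hI, J, hJ, rfl⟩ := hK
    rw [Finset.mem_singleton] at hJ
    subst hJ
    simp only [Fij, Finset.mem_filter, mem_Fam] at hI
    have e : I ⊓ J = I ∩ J := rfl
    simp only [A1, FA, Finset.mem_filter, mem_Fam, e]
    refine ⟨⟨hI.1.inter hX, ?_⟩, ?_⟩
    · rw [tT_inter, hTX, Finset.inter_empty]
    · rw [tS_inter, hSX, Finset.union_empty]
      exact hI.2.1
  · apply Finset.card_le_card
    intro K hK
    rw [Finset.mem_sups] at hK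
    obtain ⟨I, hI, J, hJ, rfl⟩ := hK
    rw [Finset.mem_singleton] at hJ
    subst hJ
    simp only [Fij, Finset.mem_filter, mem_Fam] at hI
    have e : I ⊔ J = I ∪ J := rfl
    simp only [B1, FB, Finset.mem_filter, mem_Fam, e]
    refine ⟨⟨hI.1.union hX, ?_⟩, ?_⟩
    · rw [tS_union, hSX, Finset.inter_empty]
    · rw [tT_union, hTX, Finset.union_empty]
      exact hI.2.2

theorem sq_split {β : Type} (s : Finset β) (f : β → ℝ) :
    (∑ x ∈ s, f x) ^ 2 = ∑ x ∈ s, f x ^ 2 +
      ∑ p ∈ (s ×ˢ s).filter (fun p => p.1 ≠ p.2), f p.1 * f p.2 := by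
  have h1 : (∑ x ∈ s, f x) ^ 2 = ∑ p ∈ s ×ˢ s, f p.1 * f p.2 := by
    rw [sq, Finset.sum_mul_sum, ← Finset.sum_product']
  rw [h1, ← Finset.sum_filter_add_sum_filter_not (s ×ˢ s) (fun p => p.1 = p.2)]
  congr 1
  rw [Finset.sum_filter, Finset.sum_product]
  apply Finset.sum_congr rfl
  intro x hx
  rw [Finset.sum_ite_eq, if_pos hx, sq]

theorem indic (M M' : Finset P) (f : P → P → ℝ) :
    ∑ i ∈ M, ∑ j ∈ M', f i j * ∑ i' ∈ M, ∑ j' ∈ M', (if i ≠ i' ∧ j ≠ j' then f i' j' else 0) =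
      (∑ i ∈ M, ∑ j ∈ M', f i j) ^ 2 - ∑ i ∈ M, (∑ j ∈ M', f i j) ^ 2 -
        ∑ j ∈ M', (∑ i ∈ M, f i j) ^ 2 + ∑ i ∈ M, ∑ j ∈ M', (f i j) ^ 2 := by
  have h1 : ∀ i ∈ M, ∀ j ∈ M',
      ∑ i' ∈ M, ∑ j' ∈ M', (if i ≠ i' ∧ j ≠ j' then f i' j' else 0) =
        (∑ i' ∈ M, ∑ j' ∈ M', f i' j') - (∑ j' ∈ M', f i j') - (∑ i' ∈ M, f i' j) + f i j := by
    intro i hi j hj
    have e : ∀ i' j', (if i ≠ i' ∧ j ≠ j' then f i' j' else 0) =
        f i' j' - (if i = i' then f i' j' else 0) - (if j = j' then f i' j' else 0) +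
          (if i = i' then (if j = j' then f i' j' else 0) else 0) := by
      intro i' j'
      by_cases ha : i = i' <;> by_cases hb : j = j' <;> simp [ha, hb]
    simp only [e, Finset.sum_add_distrib, Finset.sum_sub_distrib]
    congr 1
    · congr 1
      · congr 1
        rw [Finset.sum_comm]
        simp only [Finset.sum_ite_eq, if_pos hi]
      · simp only [Finset.sum_ite_eq, if_pos hj]
    · rw [Finset.sum_comm]
      simp only [Finset.sum_ite_eq, if_pos hi, if_pos hj]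
  have h2 : ∑ i ∈ M, ∑ j ∈ M', f i j * ∑ i' ∈ M, ∑ j' ∈ M',
      (if i ≠ i' ∧ j ≠ j' then f i' j' else 0) =
      ∑ i ∈ M, ∑ j ∈ M', (f i j * (∑ i' ∈ M, ∑ j' ∈ M', f i' j') -
        f i j * (∑ j' ∈ M', f i j') - f i j * (∑ i' ∈ M, f i' j) + f i j ^ 2) := by
    apply Finset.sum_congr rfl
    intro i hi
    apply Finset.sum_congr rfl
    intro j hj
    rw [h1 i hi j hj]
    ring
  rw [h2]
  simp only [Finset.sum_add_distrib, Finset.sum_sub_distrib]
  congr 1
  congr 1
  · congr 1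
    · rw [sq, Finset.sum_mul]
      apply Finset.sum_congr rfl
      intro i _
      rw [Finset.sum_mul]
    · apply Finset.sum_congr rfl
      intro i _
      rw [sq, Finset.sum_mul]
  · rw [Finset.sum_comm]
    apply Finset.sum_congr rfl
    intro j _
    rw [sq, Finset.sum_mul]

/-- The pairs of ideals of type (1,1) with disjoint types. -/
theorem disj_le (X : Set P) :
    (∑ i ∈ Mx X, ∑ j ∈ My X, ((Fij X i j).card : ℝ)) ^ 2 -
      ∑ i ∈ Mx X, (∑ j ∈ My X, ((Fij X i j).card : ℝ)) ^ 2 -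
      ∑ j ∈ My X, (∑ i ∈ Mx X, ((Fij X i j).card : ℝ)) ^ 2 +
      ∑ i ∈ Mx X, ∑ j ∈ My X, ((Fij X i j).card : ℝ) ^ 2 ≤
      4 * (((FA X).filter (fun I => (tS X I).card = 2)).card : ℝ) *
        (((FB X).filter (fun I => (tT X I).card = 2)).card : ℝ) := by
  rw [← indic]
  have h4 : (∑ p ∈ ((Mx X) ×ˢ (Mx X)).filter (fun p => p.1 ≠ p.2),
      ((A2 X p.1 p.2).card : ℝ)) ≤
      2 * (((FA X).filter (fun I => (tS X I).card = 2)).card : ℝ) := by
    exact_mod_cast sum_A2 X
  have h5 : (∑ p ∈ ((My X) ×ˢ (My X)).filter (fun p => p.1 ≠ p.2),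
      ((B2 X p.1 p.2).card : ℝ)) ≤
      2 * (((FB X).filter (fun I => (tT X I).card = 2)).card : ℝ) := by
    exact_mod_cast sum_B2 X
  have h3 : ∑ i ∈ Mx X, ∑ j ∈ My X, ((Fij X i j).card : ℝ) * ∑ i' ∈ Mx X, ∑ j' ∈ My X,
      (if i ≠ i' ∧ j ≠ j' then ((Fij X i' j').card : ℝ) else 0) ≤
      (∑ p ∈ ((Mx X) ×ˢ (Mx X)).filter (fun p => p.1 ≠ p.2), ((A2 X p.1 p.2).card : ℝ)) *
        ∑ p ∈ ((My X) ×ˢ (My X)).filter (fun p => p.1 ≠ p.2), ((B2 X p.1 p.2).card : ℝ) := by
    have e1 : ∑ i ∈ Mx X, ∑ j ∈ My X, ((Fij X i j).card : ℝ) * ∑ i' ∈ Mx X, ∑ j' ∈ My X,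
        (if i ≠ i' ∧ j ≠ j' then ((Fij X i' j').card : ℝ) else 0) ≤
        ∑ i ∈ Mx X, ∑ j ∈ My X, ∑ i' ∈ Mx X, ∑ j' ∈ My X,
          (if i ≠ i' then ((A2 X i i').card : ℝ) else 0) *
          (if j ≠ j' then ((B2 X j j').card : ℝ) else 0) := by
      apply Finset.sum_le_sum
      intro i _
      apply Finset.sum_le_sum
      intro j _
      rw [Finset.mul_sum]
      apply Finset.sum_le_sum
      intro i' _
      rw [Finset.mul_sum]
      apply Finset.sum_le_sum
      intro j' _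
      by_cases ha : i ≠ i'
      · by_cases hb : j ≠ j'
        · rw [if_pos ⟨ha, hb⟩, if_pos ha, if_pos hb]
          exact_mod_cast daykin X ha hb
        · rw [if_neg (fun h => hb h.2), if_neg hb, mul_zero, mul_zero]
      · rw [if_neg (fun h => ha h.1), if_neg ha, zero_mul, mul_zero]
    refine le_trans e1 (le_of_eq ?_)
    rw [Finset.sum_filter, Finset.sum_filter, Finset.sum_product, Finset.sum_product,
      Finset.sum_mul]
    apply Finset.sum_congr rfl
    intro i _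
    rw [Finset.sum_mul_sum, Finset.sum_comm]
    apply Finset.sum_congr rfl
    intro i' _
    apply Finset.sum_congr rfl
    intro j _
    rw [Finset.mul_sum]
  calc _ ≤ _ := h3
    _ ≤ (2 * (((FA X).filter (fun I => (tS X I).card = 2)).card : ℝ)) *
        (2 * (((FB X).filter (fun I => (tT X I).card = 2)).card : ℝ)) :=
        mul_le_mul h4 h5 (Finset.sum_nonneg (fun _ _ => by positivity)) (by positivity)
    _ = _ := by ring

theorem sum_r12 (X : Set P) :
    ∑ i ∈ Mx X, ∑ p ∈ ((My X) ×ˢ (My X)).filter (fun p => p.1 ≠ p.2),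
      (r12 X i p.1 p.2).card ≤ 2 * (R12 X).card := by
  have e : ∀ i ∈ Mx X, ∑ p ∈ ((My X) ×ˢ (My X)).filter (fun p => p.1 ≠ p.2),
      (r12 X i p.1 p.2).card = ∑ I ∈ Fam P, if tS X I = {i} then
        (((My X) ×ˢ (My X)).filter (fun p => p.1 ≠ p.2 ∧ tT X I = {p.1, p.2})).card else 0 := by
    intro i _
    simp only [r12, Finset.card_filter]
    rw [Finset.sum_comm]
    apply Finset.sum_congr rfl
    intro I _
    by_cases h : tS X I = {i}
    · simp only [h, true_and, if_true]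
      rw [← Finset.card_filter, ← Finset.card_filter, Finset.filter_filter]
    · simp [h]
  rw [Finset.sum_congr rfl e, Finset.sum_comm]
  simp only [R12, Finset.card_filter]
  rw [Finset.mul_sum]
  apply Finset.sum_le_sum
  intro I _
  rw [← Finset.card_filter]
  have h1 := ordered_pairs (tT X I) (My X)
  by_cases hc : (tS X I).card = 1
  · obtain ⟨a, ha⟩ := Finset.card_eq_one.1 hc
    have h2 : ∑ i ∈ Mx X, (if tS X I = {i} then
        (((My X) ×ˢ (My X)).filter (fun p => p.1 ≠ p.2 ∧ tT X I = {p.1, p.2})).card else 0) ≤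
        (((My X) ×ˢ (My X)).filter (fun p => p.1 ≠ p.2 ∧ tT X I = {p.1, p.2})).card := by
      rw [← Finset.sum_filter, Finset.sum_const, smul_eq_mul]
      refine Nat.le_trans (Nat.mul_le_mul_right _ (?_ : _ ≤ 1)) (by rw [one_mul])
      apply Finset.card_le_one.2
      intro x hx y hy
      rw [Finset.mem_filter] at hx hy
      exact Finset.singleton_injective (hx.2.symm.trans hy.2)
    refine le_trans h2 (le_trans h1 ?_)
    by_cases h3 : (tT X I).card = 2
    · simp [hc, h3]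
    · simp [h3]
  · apply le_of_eq_of_le _ (Nat.zero_le _)
    apply Finset.sum_eq_zero
    intro i _
    rw [if_neg]
    intro h
    apply hc
    rw [h, Finset.card_singleton]

theorem sum_r21 (X : Set P) :
    ∑ j ∈ My X, ∑ p ∈ ((Mx X) ×ˢ (Mx X)).filter (fun p => p.1 ≠ p.2),
      (r21 X p.1 p.2 j).card ≤ 2 * (R21 X).card := by
  have e : ∀ j ∈ My X, ∑ p ∈ ((Mx X) ×ˢ (Mx X)).filter (fun p => p.1 ≠ p.2),
      (r21 X p.1 p.2 j).card = ∑ I ∈ Fam P, if tT X I = {j} then
        (((Mx X) ×ˢ (Mx X)).filter (fun p => p.1 ≠ p.2 ∧ tS X I = {p.1, p.2})).card else 0 := by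
    intro j _
    simp only [r21, Finset.card_filter]
    rw [Finset.sum_comm]
    apply Finset.sum_congr rfl
    intro I _
    by_cases h : tT X I = {j}
    · simp only [h, and_true, if_true]
      rw [← Finset.card_filter, ← Finset.card_filter, Finset.filter_filter]
    · simp [h]
  rw [Finset.sum_congr rfl e, Finset.sum_comm]
  simp only [R21, Finset.card_filter]
  rw [Finset.mul_sum]
  apply Finset.sum_le_sum
  intro I _
  rw [← Finset.card_filter]
  have h1 := ordered_pairs (tS X I) (Mx X)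
  by_cases hc : (tT X I).card = 1
  · obtain ⟨a, ha⟩ := Finset.card_eq_one.1 hc
    have h2 : ∑ j ∈ My X, (if tT X I = {j} then
        (((Mx X) ×ˢ (Mx X)).filter (fun p => p.1 ≠ p.2 ∧ tS X I = {p.1, p.2})).card else 0) ≤
        (((Mx X) ×ˢ (Mx X)).filter (fun p => p.1 ≠ p.2 ∧ tS X I = {p.1, p.2})).card := by
      rw [← Finset.sum_filter, Finset.sum_const, smul_eq_mul]
      refine Nat.le_trans (Nat.mul_le_mul_right _ (?_ : _ ≤ 1)) (by rw [one_mul])
      apply Finset.card_le_one.2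
      intro x hx y hy
      rw [Finset.mem_filter] at hx hy
      exact Finset.singleton_injective (hx.2.symm.trans hy.2)
    refine le_trans h2 (le_trans h1 ?_)
    by_cases h3 : (tS X I).card = 2
    · simp [hc, h3]
    · simp [h3]
  · apply le_of_eq_of_le _ (Nat.zero_le _)
    apply Finset.sum_eq_zero
    intro i _
    rw [if_neg]
    intro h
    apply hc
    rw [h, Finset.card_singleton]

theorem row_ineq (X : Set P) (Am : ℝ) (hA : ∀ i ∈ Mx X, ((A1 X i).card : ℝ) ≤ Am) :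
    ∑ i ∈ Mx X, (∑ j ∈ My X, ((Fij X i j).card : ℝ)) ^ 2 ≤
      2 * Am * ((R12 X).card : ℝ) + ∑ i ∈ Mx X, ∑ j ∈ My X, ((Fij X i j).card : ℝ) ^ 2 := by
  have h1 : ∑ i ∈ Mx X, (∑ j ∈ My X, ((Fij X i j).card : ℝ)) ^ 2 ≤
      ∑ i ∈ Mx X, (∑ j ∈ My X, ((Fij X i j).card : ℝ) ^ 2 +
        Am * ∑ p ∈ ((My X) ×ˢ (My X)).filter (fun p => p.1 ≠ p.2),
          ((r12 X i p.1 p.2).card : ℝ)) := by
    apply Finset.sum_le_sum
    intro i hi
    rw [sq_split]
    apply add_le_add le_rfl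
    rw [Finset.mul_sum]
    apply Finset.sum_le_sum
    intro p hp
    rw [Finset.mem_filter] at hp
    have h2 : ((Fij X i p.1).card : ℝ) * ((Fij X i p.2).card : ℝ) ≤
        ((A1 X i).card : ℝ) * ((r12 X i p.1 p.2).card : ℝ) := by
      exact_mod_cast daykin_row X hp.2
    exact le_trans h2 (mul_le_mul_of_nonneg_right (hA i hi) (by positivity))
  rw [Finset.sum_add_distrib, ← Finset.mul_sum] at h1
  by_cases hM : (Mx X).Nonempty
  · obtain ⟨i, hi⟩ := hM
    have hAm : 0 ≤ Am := le_trans (by positivity) (hA i hi)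
    have h2 : ∑ i ∈ Mx X, ∑ p ∈ ((My X) ×ˢ (My X)).filter (fun p => p.1 ≠ p.2),
        ((r12 X i p.1 p.2).card : ℝ) ≤ 2 * ((R12 X).card : ℝ) := by
      exact_mod_cast sum_r12 X
    have h3 := mul_le_mul_of_nonneg_left h2 hAm
    linarith
  · rw [Finset.not_nonempty_iff_eq_empty] at hM
    have hR : (R12 X).card = 0 := by
      rw [Finset.card_eq_zero, R12, Finset.filter_eq_empty_iff]
      rintro I _ ⟨h, -⟩
      rw [tS, hM] at h
      simp at h
    rw [hM, hR]
    simp

theorem col_ineq (X : Set P) (Bm : ℝ) (hB : ∀ j ∈ My X, ((B1 X j).card : ℝ) ≤ Bm) :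
    ∑ j ∈ My X, (∑ i ∈ Mx X, ((Fij X i j).card : ℝ)) ^ 2 ≤
      2 * Bm * ((R21 X).card : ℝ) + ∑ i ∈ Mx X, ∑ j ∈ My X, ((Fij X i j).card : ℝ) ^ 2 := by
  have h1 : ∑ j ∈ My X, (∑ i ∈ Mx X, ((Fij X i j).card : ℝ)) ^ 2 ≤
      ∑ j ∈ My X, (∑ i ∈ Mx X, ((Fij X i j).card : ℝ) ^ 2 +
        Bm * ∑ p ∈ ((Mx X) ×ˢ (Mx X)).filter (fun p => p.1 ≠ p.2),
          ((r21 X p.1 p.2 j).card : ℝ)) := by
    apply Finset.sum_le_sum
    intro j hj
    rw [sq_split]
    apply add_le_add le_rfl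
    rw [Finset.mul_sum]
    apply Finset.sum_le_sum
    intro p hp
    rw [Finset.mem_filter] at hp
    have h2 : ((Fij X p.1 j).card : ℝ) * ((Fij X p.2 j).card : ℝ) ≤
        ((B1 X j).card : ℝ) * ((r21 X p.1 p.2 j).card : ℝ) := by
      exact_mod_cast daykin_col X hp.2
    exact le_trans h2 (mul_le_mul_of_nonneg_right (hB j hj) (by positivity))
  rw [Finset.sum_add_distrib, ← Finset.mul_sum] at h1
  rw [Finset.sum_comm (s := Mx X)]
  by_cases hM : (My X).Nonempty
  · obtain ⟨j, hj⟩ := hM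
    have hBm : 0 ≤ Bm := le_trans (by positivity) (hB j hj)
    have h2 : ∑ j ∈ My X, ∑ p ∈ ((Mx X) ×ˢ (Mx X)).filter (fun p => p.1 ≠ p.2),
        ((r21 X p.1 p.2 j).card : ℝ) ≤ 2 * ((R21 X).card : ℝ) := by
      exact_mod_cast sum_r21 X
    have h3 := mul_le_mul_of_nonneg_left h2 hBm
    linarith
  · rw [Finset.not_nonempty_iff_eq_empty] at hM
    have hR : (R21 X).card = 0 := by
      rw [Finset.card_eq_zero, R21, Finset.filter_eq_empty_iff]
      rintro I _ ⟨-, h⟩
      rw [tT, hM] at h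
      simp at h
    rw [hM, hR]
    simp

theorem card_F1' (X : Set P) :
    ((F1 X).card : ℝ) = ∑ i ∈ Mx X, ∑ j ∈ My X, ((Fij X i j).card : ℝ) := by
  rw [card_F1, Finset.sum_product]
  push_cast
  rfl

theorem card_R (X : Set P) : (R12 X).card + (R21 X).card ≤ (FR X).card := by
  have hd : Disjoint (R12 X) (R21 X) := by
    rw [Finset.disjoint_left]
    intro I h1 h2
    simp only [R12, R21, Finset.mem_filter] at h1 h2
    omega
  rw [← Finset.card_union_of_disjoint hd]
  apply Finset.card_le_card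
  intro I hI
  rw [Finset.mem_union] at hI
  simp only [R12, R21, Finset.mem_filter] at hI
  simp only [FR, Finset.mem_filter]
  rcases hI with hI | hI
  · refine ⟨hI.1, ?_, ?_, by omega⟩
    · intro h; rw [h] at hI; simp at hI
    · intro h; rw [h] at hI; simp at hI
  · refine ⟨hI.1, ?_, ?_, by omega⟩
    · intro h; rw [h] at hI; simp at hI
    · intro h; rw [h] at hI; simp at hI

/-- The main inequality for the ideals of type (1,1). -/
theorem square_ineq (X : Set P) (Am Bm L : ℝ) (hA : ∀ i ∈ Mx X, ((A1 X i).card : ℝ) ≤ Am)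
    (hB : ∀ j ∈ My X, ((B1 X j).card : ℝ) ≤ Bm)
    (hL : ∀ i ∈ Mx X, ∀ j ∈ My X, ((Fij X i j).card : ℝ) ≤ L) :
    ((F1 X).card : ℝ) ^ 2 ≤
      4 * (((FA X).filter (fun I => (tS X I).card = 2)).card : ℝ) *
        (((FB X).filter (fun I => (tT X I).card = 2)).card : ℝ) +
      2 * Am * ((R12 X).card : ℝ) + 2 * Bm * ((R21 X).card : ℝ) + L * ((F1 X).card : ℝ) := by
  have h1 := disj_le X
  have h2 := row_ineq X Am hA
  have h3 := col_ineq X Bm hB
  have h4 : ∑ i ∈ Mx X, ∑ j ∈ My X, ((Fij X i j).card : ℝ) ^ 2 ≤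
      L * ∑ i ∈ Mx X, ∑ j ∈ My X, ((Fij X i j).card : ℝ) := by
    rw [Finset.mul_sum]
    apply Finset.sum_le_sum
    intro i hi
    rw [Finset.mul_sum]
    apply Finset.sum_le_sum
    intro j hj
    rw [sq]
    exact mul_le_mul_of_nonneg_right (hL i hi j hj) (by positivity)
  rw [card_F1']
  linarith

/-- If there is at most one ideal of each type `{i}` and `{j}`, then there are many ideals of the
types (1,2) and (2,1). -/
theorem many_R {X : Set P} (hX : IsLowerSet X)
    (hA : ∀ i ∈ Mx X, ((FA X).filter (fun I => tS X I = {i})).card ≤ 1)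
    (hB : ∀ j ∈ My X, ((FB X).filter (fun I => tT X I = {j})).card ≤ 1) :
    2 * (F1 X).card ≤ (FR X).card + (Mx X).card + (My X).card := by
  have hF : ∀ i j, (Fij X i j).card ≤ 1 := by
    intro i j
    apply Finset.card_le_one.2
    intro I hI J hJ
    exact Fij_le_one hX hA hB hI hJ
  have h2 := row_ineq X 1 (fun i hi => by exact_mod_cast hA i hi)
  have h3 := col_ineq X 1 (fun j hj => by exact_mod_cast hB j hj)
  have h4 : ∑ i ∈ Mx X, ∑ j ∈ My X, ((Fij X i j).card : ℝ) ^ 2 ≤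
      ∑ i ∈ Mx X, ∑ j ∈ My X, ((Fij X i j).card : ℝ) := by
    apply Finset.sum_le_sum
    intro i hi
    apply Finset.sum_le_sum
    intro j hj
    rw [sq]
    have : ((Fij X i j).card : ℝ) ≤ 1 := by exact_mod_cast hF i j
    calc _ ≤ 1 * ((Fij X i j).card : ℝ) := mul_le_mul_of_nonneg_right this (by positivity)
      _ = _ := one_mul _
  have key : ∀ n : ℕ, 3 * (n : ℝ) - 2 ≤ (n : ℝ) ^ 2 := by
    intro n
    have h : (0 : ℤ) ≤ ((n : ℤ) - 1) * ((n : ℤ) - 2) := by
      rcases Nat.lt_or_ge n 2 with h | h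
      · have : n = 0 ∨ n = 1 := by omega
        rcases this with rfl | rfl <;> norm_num
      · apply mul_nonneg <;> omega
    have h' : (0 : ℝ) ≤ ((n : ℝ) - 1) * ((n : ℝ) - 2) := by exact_mod_cast h
    nlinarith
  have h5 : 3 * (∑ i ∈ Mx X, ∑ j ∈ My X, ((Fij X i j).card : ℝ)) - 2 * ((Mx X).card : ℝ) ≤
      ∑ i ∈ Mx X, (∑ j ∈ My X, ((Fij X i j).card : ℝ)) ^ 2 := by
    have : ∑ i ∈ Mx X, (3 * (∑ j ∈ My X, ((Fij X i j).card : ℝ)) - 2) ≤
        ∑ i ∈ Mx X, (∑ j ∈ My X, ((Fij X i j).card : ℝ)) ^ 2 := by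
      apply Finset.sum_le_sum
      intro i _
      have := key (∑ j ∈ My X, (Fij X i j).card)
      push_cast at this
      exact this
    refine le_trans (le_of_eq ?_) this
    rw [Finset.sum_sub_distrib, ← Finset.mul_sum, Finset.sum_const, nsmul_eq_mul]
    ring
  have h6 : 3 * (∑ i ∈ Mx X, ∑ j ∈ My X, ((Fij X i j).card : ℝ)) - 2 * ((My X).card : ℝ) ≤
      ∑ j ∈ My X, (∑ i ∈ Mx X, ((Fij X i j).card : ℝ)) ^ 2 := by
    have : ∑ j ∈ My X, (3 * (∑ i ∈ Mx X, ((Fij X i j).card : ℝ)) - 2) ≤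
        ∑ j ∈ My X, (∑ i ∈ Mx X, ((Fij X i j).card : ℝ)) ^ 2 := by
      apply Finset.sum_le_sum
      intro j _
      have := key (∑ i ∈ Mx X, (Fij X i j).card)
      push_cast at this
      exact this
    refine le_trans (le_of_eq ?_) this
    rw [Finset.sum_sub_distrib, ← Finset.mul_sum, Finset.sum_const, nsmul_eq_mul,
      Finset.sum_comm]
    ring
  have h7 : ((R12 X).card : ℝ) + ((R21 X).card : ℝ) ≤ ((FR X).card : ℝ) := by
    exact_mod_cast card_R X
  have h8 : 2 * ((F1 X).card : ℝ) ≤ (FR X).card + (Mx X).card + (My X).card := by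
    rw [card_F1']
    linarith
  exact_mod_cast h8

end Pool.Agent.Narrow
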