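import Pool.Agent.Narrow.Fibers
import Pool.Agent.Narrow.Squares

/-!
MP_a217f7_co.  Posets of width five: no cut.
-/

set_option autoImplicit false

namespace Pool.Agent.Narrow

open Classical

section

variable {P : Type} [Fintype P] [PartialOrder P]

theorem singlesA {X : Set P} (hX : IsLowerSet X) (i : P) :
    (A1 X i).card ≤ 1 + ((DA X).filter (fun I => tS X I = {i})).card := by
  have h1 : ((FA X \ DA X).filter (fun I => tS X I = {i})).card ≤ 1 := by
    apply Finset.card_le_one.2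
    intro I hI J hJ
    rw [Finset.mem_filter] at hI hJ
    exact injA hX hI.1 hJ.1 (hI.2.trans hJ.2.symm)
  refine le_trans (Finset.card_le_card ?_) (le_trans (Finset.card_union_le _ _)
    (Nat.add_le_add_right h1 _))
  intro I hI
  rw [A1, Finset.mem_filter] at hI
  rw [Finset.mem_union, Finset.mem_filter, Finset.mem_filter, Finset.mem_sdiff]
  by_cases hD : I ∈ DA X
  · exact Or.inr ⟨hD, hI.2⟩
  · exact Or.inl ⟨⟨hI.1, hD⟩, hI.2⟩

theorem singlesB {X : Set P} (hX : IsLowerSet X) (j : P) :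
    (B1 X j).card ≤ 1 + ((DB X).filter (fun I => tT X I = {j})).card := by
  have h1 : ((FB X \ DB X).filter (fun I => tT X I = {j})).card ≤ 1 := by
    apply Finset.card_le_one.2
    intro I hI J hJ
    rw [Finset.mem_filter] at hI hJ
    exact injB hX hI.1 hJ.1 (hI.2.trans hJ.2.symm)
  refine le_trans (Finset.card_le_card ?_) (le_trans (Finset.card_union_le _ _)
    (Nat.add_le_add_right h1 _))
  intro I hI
  rw [B1, Finset.mem_filter] at hI
  rw [Finset.mem_union, Finset.mem_filter, Finset.mem_filter, Finset.mem_sdiff]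
  by_cases hD : I ∈ DB X
  · exact Or.inr ⟨hD, hI.2⟩
  · exact Or.inl ⟨⟨hI.1, hD⟩, hI.2⟩

theorem doublesA {X : Set P} (hX : IsLowerSet X) :
    ((FA X).filter (fun I => (tS X I).card = 2)).card ≤
      (Mx X).card.choose 2 + ((DA X).filter (fun I => (tS X I).card = 2)).card := by
  have h1 : ((FA X \ DA X).filter (fun I => (tS X I).card = 2)).card ≤ (Mx X).card.choose 2 := by
    rw [← Finset.card_powersetCard]
    apply Finset.card_le_card_of_injOn (tS X)
    · intro I hI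
      simp only [Finset.coe_filter, Set.mem_ofPred_eq] at hI
      simp only [Finset.mem_coe, Finset.mem_powersetCard]
      exact ⟨Finset.filter_subset _ _, hI.2⟩
    · exact (injA hX).mono (by
        intro I hI; simp only [Finset.coe_filter, Set.mem_ofPred_eq] at hI; exact hI.1)
  refine le_trans (Finset.card_le_card ?_) (le_trans (Finset.card_union_le _ _)
    (Nat.add_le_add_right h1 _))
  intro I hI
  rw [Finset.mem_filter] at hI
  rw [Finset.mem_union, Finset.mem_filter, Finset.mem_filter, Finset.mem_sdiff]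
  by_cases hD : I ∈ DA X
  · exact Or.inr ⟨hD, hI.2⟩
  · exact Or.inl ⟨⟨hI.1, hD⟩, hI.2⟩

theorem doublesB {X : Set P} (hX : IsLowerSet X) :
    ((FB X).filter (fun I => (tT X I).card = 2)).card ≤
      (My X).card.choose 2 + ((DB X).filter (fun I => (tT X I).card = 2)).card := by
  have h1 : ((FB X \ DB X).filter (fun I => (tT X I).card = 2)).card ≤ (My X).card.choose 2 := by
    rw [← Finset.card_powersetCard]
    apply Finset.card_le_card_of_injOn (tT X)
    · intro I hI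
      simp only [Finset.coe_filter, Set.mem_ofPred_eq] at hI
      simp only [Finset.mem_coe, Finset.mem_powersetCard]
      exact ⟨Finset.filter_subset _ _, hI.2⟩
    · exact (injB hX).mono (by
        intro I hI; simp only [Finset.coe_filter, Set.mem_ofPred_eq] at hI; exact hI.1)
  refine le_trans (Finset.card_le_card ?_) (le_trans (Finset.card_union_le _ _)
    (Nat.add_le_add_right h1 _))
  intro I hI
  rw [Finset.mem_filter] at hI
  rw [Finset.mem_union, Finset.mem_filter, Finset.mem_filter, Finset.mem_sdiff]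
  by_cases hD : I ∈ DB X
  · exact Or.inr ⟨hD, hI.2⟩
  · exact Or.inl ⟨⟨hI.1, hD⟩, hI.2⟩

end

/-- Arithmetic for width five, five maximal and five minimal elements, `t ≤ 70`. -/
theorem arith_a (x y t r R1 R2 A B : ℝ) (hx : 0 ≤ x) (hy : 0 ≤ y)
    (hR1 : 0 ≤ R1) (hR2 : 0 ≤ R2) (hA0 : 0 ≤ A) (hD : 16 ≤ x + y)
    (h1 : x + y + r + 10 ≤ t) (ht : t ≤ 70) (hR : R1 + R2 ≤ r)
    (hA : A ≤ 10 + x / 4) (hB : B ≤ 10 + y / 4)
    (h3 : t ^ 2 ≤ 4 * A * B + 2 * (1 + x / 16) * R1 + 2 * (1 + y / 16) * R2 +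
      (1 + x / 16) * (1 + y / 16) * t) : False := by
  have ht0 : 0 ≤ t := by linarith
  have s1 : 4 * A * B ≤ (20 + (x + y) / 4) ^ 2 := by
    have : A * B ≤ (10 + x / 4) * (10 + y / 4) :=
      le_trans (mul_le_mul_of_nonneg_left hB hA0)
        (mul_le_mul_of_nonneg_right hA (by positivity))
    nlinarith [sq_nonneg (x - y)]
  have s2 : 2 * (1 + x / 16) * R1 + 2 * (1 + y / 16) * R2 ≤ 2 * (1 + (x + y) / 16) * r := by
    have a1 : (1 + x / 16) * R1 ≤ (1 + (x + y) / 16) * R1 :=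
      mul_le_mul_of_nonneg_right (by linarith) hR1
    have a2 : (1 + y / 16) * R2 ≤ (1 + (x + y) / 16) * R2 :=
      mul_le_mul_of_nonneg_right (by linarith) hR2
    have a3 : (1 + (x + y) / 16) * (R1 + R2) ≤ (1 + (x + y) / 16) * r :=
      mul_le_mul_of_nonneg_left hR (by positivity)
    linarith
  have s3 : (1 + x / 16) * (1 + y / 16) ≤ (1 + (x + y) / 32) ^ 2 := by
    nlinarith [sq_nonneg (x - y)]
  have s4 : (1 + x / 16) * (1 + y / 16) * t ≤ (1 + (x + y) / 32) ^ 2 * t :=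
    mul_le_mul_of_nonneg_right s3 ht0
  obtain ⟨e, he⟩ : ∃ e, x + y = 16 + e := ⟨x + y - 16, by ring⟩
  have hr0 : 0 ≤ r := by linarith
  rw [he] at s1 s2 s4 h1 hD
  have he0 : 0 ≤ e := by linarith
  have he1 : e ≤ 44 := by linarith
  have s5 : (1 + (16 + e) / 32) ^ 2 ≤ 9 / 4 + 7 / 50 * e := by nlinarith
  have s6 : (1 + (16 + e) / 32) ^ 2 * t ≤ (9 / 4 + 7 / 50 * e) * t :=
    mul_le_mul_of_nonneg_right s5 ht0
  have s7 : t ^ 2 ≤ (20 + (16 + e) / 4) ^ 2 + 2 * (1 + (16 + e) / 16) * r +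
      (9 / 4 + 7 / 50 * e) * t := by linarith
  obtain ⟨s, hs⟩ : ∃ s, t = 26 + e + r + s := ⟨t - (26 + e + r), by ring⟩
  have hs0 : 0 ≤ s := by linarith
  rw [hs] at s7
  nlinarith [mul_nonneg he0 hr0, mul_nonneg he0 hs0, mul_nonneg hr0 hs0, mul_nonneg he0 he0,
    mul_nonneg hr0 hr0, mul_nonneg hs0 hs0]

theorem arith_b (x y t r R1 R2 A B N : ℝ) (hx : 0 ≤ x) (hy : 0 ≤ y)
    (hR1 : 0 ≤ R1) (hR2 : 0 ≤ R2) (hA0 : 0 ≤ A) (hD : 16 ≤ x + y)
    (h1 : x + y + r + 10 ≤ t) (ht : 70 ≤ t) (hR : R1 + R2 ≤ r)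
    (hA : A ≤ 10 + x / 4) (hB : B ≤ 10 + y / 4) (hN : N ≤ 63 + (x + y) + t + r)
    (h3 : t ^ 2 ≤ 4 * A * B + 2 * (1 + x / 16) * R1 + 2 * (1 + y / 16) * R2 +
      N / 4 * t) : False := by
  have ht0 : 0 ≤ t := by linarith
  have s1 : 4 * A * B ≤ (20 + (x + y) / 4) ^ 2 := by
    have : A * B ≤ (10 + x / 4) * (10 + y / 4) :=
      le_trans (mul_le_mul_of_nonneg_left hB hA0)
        (mul_le_mul_of_nonneg_right hA (by positivity))
    nlinarith [sq_nonneg (x - y)]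
  have s2 : 2 * (1 + x / 16) * R1 + 2 * (1 + y / 16) * R2 ≤ 2 * (1 + (x + y) / 16) * r := by
    have a1 : (1 + x / 16) * R1 ≤ (1 + (x + y) / 16) * R1 :=
      mul_le_mul_of_nonneg_right (by linarith) hR1
    have a2 : (1 + y / 16) * R2 ≤ (1 + (x + y) / 16) * R2 :=
      mul_le_mul_of_nonneg_right (by linarith) hR2
    have a3 : (1 + (x + y) / 16) * (R1 + R2) ≤ (1 + (x + y) / 16) * r :=
      mul_le_mul_of_nonneg_left hR (by positivity)
    linarith
  have hr0 : 0 ≤ r := by linarith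
  generalize x + y = D at *
  have s3 : N / 4 * t ≤ (53 + 2 * t) / 4 * t :=
    mul_le_mul_of_nonneg_right (by linarith) ht0
  have s4 : (20 + D / 4) ^ 2 ≤ (35 / 2 + t / 4) ^ 2 := by
    apply pow_le_pow_left₀ (by linarith)
    linarith
  have s5 : D * r ≤ (t - 10) ^ 2 / 4 := by
    have : (D + r) ^ 2 ≤ (t - 10) ^ 2 := pow_le_pow_left₀ (by linarith) (by linarith) 2
    nlinarith [sq_nonneg (D - r)]
  have s6 : t ^ 2 ≤ (35 / 2 + t / 4) ^ 2 + 2 * r + 1 / 8 * ((t - 10) ^ 2 / 4) +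
      (53 + 2 * t) / 4 * t := by nlinarith
  nlinarith

/-- Arithmetic for five maximal and four minimal elements. -/
theorem arith_c (x y t r R1 R2 A B : ℝ) (hx : 0 ≤ x) (hy : 0 ≤ y)
    (hR1 : 0 ≤ R1) (hR2 : 0 ≤ R2) (hA0 : 0 ≤ A)
    (h1 : 2 * (x + y) + 3 * r + 20 ≤ t) (ht : t ≤ 100) (hR : R1 + R2 ≤ r)
    (hA : A ≤ 10 + x / 4) (hB : B ≤ 6 + 3 * y / 8)
    (h3 : t ^ 2 ≤ 4 * A * B + 2 * (1 + x / 16) * R1 + 2 * (1 + y / 8) * R2 +
      (1 + x / 16) * (1 + y / 8) * t) : False := by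
  have ht0 : 0 ≤ t := by linarith
  have s1 : 4 * A * B ≤ 240 + 15 * (x + y) + 3 / 32 * (x + y) ^ 2 := by
    have : A * B ≤ (10 + x / 4) * (6 + 3 * y / 8) :=
      le_trans (mul_le_mul_of_nonneg_left hB hA0)
        (mul_le_mul_of_nonneg_right hA (by positivity))
    nlinarith [sq_nonneg (x - y)]
  have s2 : 2 * (1 + x / 16) * R1 + 2 * (1 + y / 8) * R2 ≤ 2 * (1 + (x + y) / 8) * r := by
    have a1 : (1 + x / 16) * R1 ≤ (1 + (x + y) / 8) * R1 :=
      mul_le_mul_of_nonneg_right (by linarith) hR1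
    have a2 : (1 + y / 8) * R2 ≤ (1 + (x + y) / 8) * R2 :=
      mul_le_mul_of_nonneg_right (by linarith) hR2
    have a3 : (1 + (x + y) / 8) * (R1 + R2) ≤ (1 + (x + y) / 8) * r :=
      mul_le_mul_of_nonneg_left hR (by positivity)
    linarith
  have s3 : (1 + x / 16) * (1 + y / 8) ≤ 1 + (x + y) / 8 + (x + y) ^ 2 / 512 := by
    nlinarith [sq_nonneg (x - y)]
  have hr0 : 0 ≤ r := by linarith
  have hD0 : 0 ≤ x + y := by linarith
  have s4 : (1 + x / 16) * (1 + y / 8) * t ≤ (1 + (x + y) / 8 + (x + y) ^ 2 / 512) * t :=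
    mul_le_mul_of_nonneg_right s3 ht0
  generalize x + y = D at *
  have hD1 : D ≤ 40 := by linarith
  have s5 : 1 + D / 8 + D ^ 2 / 512 ≤ 1 + 21 / 100 * D := by nlinarith
  have s6 : (1 + D / 8 + D ^ 2 / 512) * t ≤ (1 + 21 / 100 * D) * t :=
    mul_le_mul_of_nonneg_right s5 ht0
  have s7 : t ^ 2 ≤ 240 + 15 * D + 3 / 32 * D ^ 2 + 2 * (1 + D / 8) * r +
      (1 + 21 / 100 * D) * t := by linarith
  obtain ⟨s, hs⟩ : ∃ s, t = 2 * D + 3 * r + 20 + s := ⟨t - (2 * D + 3 * r + 20), by ring⟩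
  have hs0 : 0 ≤ s := by linarith
  rw [hs] at s7
  nlinarith [mul_nonneg hD0 hr0, mul_nonneg hD0 hs0, mul_nonneg hr0 hs0, mul_nonneg hD0 hD0,
    mul_nonneg hr0 hr0, mul_nonneg hs0 hs0]

theorem arith_d (x y t r R1 R2 A B N : ℝ) (hx : 0 ≤ x) (hy : 0 ≤ y)
    (hR1 : 0 ≤ R1) (hR2 : 0 ≤ R2) (hA0 : 0 ≤ A)
    (h1 : 2 * (x + y) + 3 * r + 20 ≤ t) (ht : 100 ≤ t) (hR : R1 + R2 ≤ r)
    (hA : A ≤ 10 + x / 4) (hB : B ≤ 6 + 3 * y / 8) (hN : N ≤ 47 + (x + y) + t + r)
    (h3 : t ^ 2 ≤ 4 * A * B + 2 * (1 + x / 16) * R1 + 2 * (1 + y / 8) * R2 +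
      N / 4 * t) : False := by
  have ht0 : 0 ≤ t := by linarith
  have s1 : 4 * A * B ≤ 240 + 15 * (x + y) + 3 / 32 * (x + y) ^ 2 := by
    have : A * B ≤ (10 + x / 4) * (6 + 3 * y / 8) :=
      le_trans (mul_le_mul_of_nonneg_left hB hA0)
        (mul_le_mul_of_nonneg_right hA (by positivity))
    nlinarith [sq_nonneg (x - y)]
  have s2 : 2 * (1 + x / 16) * R1 + 2 * (1 + y / 8) * R2 ≤ 2 * (1 + (x + y) / 8) * r := by
    have a1 : (1 + x / 16) * R1 ≤ (1 + (x + y) / 8) * R1 :=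
      mul_le_mul_of_nonneg_right (by linarith) hR1
    have a2 : (1 + y / 8) * R2 ≤ (1 + (x + y) / 8) * R2 :=
      mul_le_mul_of_nonneg_right (by linarith) hR2
    have a3 : (1 + (x + y) / 8) * (R1 + R2) ≤ (1 + (x + y) / 8) * r :=
      mul_le_mul_of_nonneg_left hR (by positivity)
    linarith
  have hr0 : 0 ≤ r := by linarith
  have hD0 : 0 ≤ x + y := by linarith
  generalize x + y = D at *
  have s3 : N / 4 * t ≤ (37 + 3 / 2 * t) / 4 * t :=
    mul_le_mul_of_nonneg_right (by linarith) ht0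
  have s4 : D ^ 2 ≤ (t / 2) ^ 2 := pow_le_pow_left₀ hD0 (by linarith) 2
  have s5 : D * r ≤ t / 2 * (t / 3) :=
    mul_le_mul (by linarith) (by linarith) hr0 (by linarith)
  nlinarith

end Pool.Agent.Narrow
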