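import Pool.Agent.Narrow.Five
import Pool.Agent.Narrow.Central

/-!
MP_a217f7_co.  Posets of width at most five: the lower bounds.
-/

set_option autoImplicit false

namespace Pool.Agent.Narrow

open Classical

variable {P : Type} [Fintype P] [PartialOrder P]

theorem Fij_le_row (X : Set P) {i j : P} (hj : j ∈ My X) : (Fij X i j).card ≤ cout i := by
  refine le_trans ?_ (row_le X i)
  exact Finset.single_le_sum (f := fun j => (Fij X i j).card) (fun _ _ => Nat.zero_le _) hj

theorem no_cut5 {X : Set P} (hX : IsLowerSet X)
    (hp0 : 1 ≤ (Mx X).card) (hq0 : 1 ≤ (My X).card)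
    (hp : (Mx X).card ≤ 5) (hq : (My X).card ≤ 5)
    (hS : ∀ x ∈ Mx X, 4 * cout x + 1 ≤ 1 * (Fam P).card)
    (hT : ∀ y ∈ My X, 4 * cin y + 1 ≤ 1 * (Fam P).card) : False := by
  have e1 := card_types hX
  have e2 := sum_S (X := X)
  have e3 := sum_T (X := X)
  have e4 := sum_ST (X := X)
  have e5 := sumA hX
  have e6 := sumB hX
  have e7 := cardA hX
  have e8 := cardB hX
  have e9 : 4 * (∑ I ∈ Fam P, (tS X I).card) + (Mx X).card ≤
      (Mx X).card * (1 * (Fam P).card) := by
    rw [sum_tS]; exact sum_lt hS
  have e10 : 4 * (∑ I ∈ Fam P, (tT X I).card) + (My X).card ≤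
      (My X).card * (1 * (Fam P).card) := by
    rw [sum_tT]; exact sum_lt hT
  have e11 := card_R X
  have sA := fun x hx => singleA hX (x := x) hx
  have sB := fun y hy => singleB hX (y := y) hy
  have manyR := many_R hX
  have hA1 : ∀ i ∈ Mx X, (A1 X i).card ≤ 1 + (DA X).card / 2 ^ ((Mx X).card - 1) := by
    intro i _
    refine le_trans (singlesA hX i) (Nat.add_le_add_left ?_ 1)
    rw [Nat.le_div_iff_mul_le (by positivity), mul_comm]
    exact fib_single (fibA hX) i
  have hB1 : ∀ j ∈ My X, (B1 X j).card ≤ 1 + (DB X).card / 2 ^ ((My X).card - 1) := by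
    intro j _
    refine le_trans (singlesB hX j) (Nat.add_le_add_left ?_ 1)
    rw [Nat.le_div_iff_mul_le (by positivity), mul_comm]
    exact fib_single (fibB hX) j
  have dA := doublesA hX
  have dB := doublesB hX
  have fA5 := fib_pair5 (fibA hX)
  have fB5 := fib_pair5 (fibB hX)
  have fA4 := fib_pair4 (fibA hX)
  have fB4 := fib_pair4 (fibB hX)
  have sq := square_ineq X
  have cell : ∀ i ∈ Mx X, ∀ j ∈ My X, (Fij X i j).card ≤ (A1 X i).card * (B1 X j).card :=
    fun i _ j _ => daykin_cell hX i j
  have cellN : ∀ i ∈ Mx X, ∀ j ∈ My X, 4 * (Fij X i j).card ≤ (Fam P).card := by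
    intro i hi j hj
    have h1 := Fij_le_row X (i := i) hj
    have h2 := hS i hi
    omega
  clear hS hT
  generalize ∑ I ∈ Fam P, (tS X I).card = σ at *
  generalize ∑ I ∈ Fam P, (tT X I).card = τ at *
  generalize ∑ I ∈ FA X, (tS X I).card = sumsA at *
  generalize ∑ I ∈ FB X, (tT X I).card = sumsB at *
  generalize (Fam P).card = N at *
  generalize (FA X).card = a at *
  generalize (FB X).card = b at *
  generalize (F1 X).card = t at *
  generalize (FR X).card = r at *
  generalize (DA X).card = x at *
  generalize (DB X).card = y at *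
  generalize hp' : (Mx X).card = p at *
  generalize hq' : (My X).card = q at *
  generalize ((DA X).filter (fun I => (tS X I).card = 2)).card = x2 at *
  generalize ((DB X).filter (fun I => (tT X I).card = 2)).card = y2 at *
  generalize (R12 X).card = R1 at *
  generalize (R21 X).card = R2 at *
  generalize hA2 : ((FA X).filter (fun I => (tS X I).card = 2)).card = A at *
  generalize hB2 : ((FB X).filter (fun I => (tT X I).card = 2)).card = B at *
  have hp1 : p = 1 ∨ p = 2 ∨ p = 3 ∨ p = 4 ∨ p = 5 := by omega
  have hq1 : q = 1 ∨ q = 2 ∨ q = 3 ∨ q = 4 ∨ q = 5 := by omega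
  -- the common real inequality
  have main : ∀ (u v L : ℝ), 0 ≤ u → 0 ≤ v →
      (∀ i ∈ Mx X, ((A1 X i).card : ℝ) ≤ u) → (∀ j ∈ My X, ((B1 X j).card : ℝ) ≤ v) →
      (L = u * v ∨ L = N / 4) →
      (t : ℝ) ^ 2 ≤ 4 * A * B + 2 * u * R1 + 2 * v * R2 + L * t := by
    intro u v L hu hv h1 h2 h3
    apply sq u v L h1 h2
    intro i hi j hj
    rcases h3 with rfl | rfl
    · have h4 : ((Fij X i j).card : ℝ) ≤ ((A1 X i).card : ℝ) * ((B1 X j).card : ℝ) := by
        exact_mod_cast cell i hi j hj
      exact le_trans h4 (mul_le_mul (h1 i hi) (h2 j hj) (by positivity) hu)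
    · have h4 : 4 * ((Fij X i j).card : ℝ) ≤ N := by exact_mod_cast cellN i hi j hj
      linarith
  by_cases h55 : p = 5 ∧ q = 5
  · obtain ⟨rfl, rfl⟩ := h55
    have k1 : x + y + r + 10 ≤ t := by omega
    by_cases hD : 16 ≤ x + y
    · have k2 : N ≤ 63 + (x + y) + t + r := by omega
      have c5 : Nat.choose 5 2 = 10 := by decide
      rw [c5] at dA dB
      have fA := fA5 rfl
      have fB := fB5 rfl
      have kA : (A : ℝ) ≤ 10 + (x : ℝ) / 4 := by
        have : 4 * A ≤ 40 + x := by omega
        have h : (4 : ℝ) * A ≤ 40 + x := by exact_mod_cast this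
        linarith
      have kB : (B : ℝ) ≤ 10 + (y : ℝ) / 4 := by
        have : 4 * B ≤ 40 + y := by omega
        have h : (4 : ℝ) * B ≤ 40 + y := by exact_mod_cast this
        linarith
      have hu : ∀ i ∈ Mx X, ((A1 X i).card : ℝ) ≤ 1 + (x : ℝ) / 16 := by
        intro i hi
        have h := hA1 i hi
        norm_num at h
        have h2 : 16 * (A1 X i).card ≤ 16 + x := by omega
        have h3 : (16 : ℝ) * (A1 X i).card ≤ 16 + x := by exact_mod_cast h2
        linarith
      have hv : ∀ j ∈ My X, ((B1 X j).card : ℝ) ≤ 1 + (y : ℝ) / 16 := by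
        intro j hj
        have h := hB1 j hj
        norm_num at h
        have h2 : 16 * (B1 X j).card ≤ 16 + y := by omega
        have h3 : (16 : ℝ) * (B1 X j).card ≤ 16 + y := by exact_mod_cast h2
        linarith
      have k1' : (x : ℝ) + y + r + 10 ≤ t := by exact_mod_cast k1
      have k2' : (N : ℝ) ≤ 63 + (x + y) + t + r := by exact_mod_cast k2
      have k3' : (16 : ℝ) ≤ x + y := by exact_mod_cast hD
      have k4' : (R1 : ℝ) + R2 ≤ r := by exact_mod_cast e11
      rcases le_total (t : ℝ) 70 with h | h
      · exact arith_a x y t r R1 R2 A B (by positivity) (by positivity) (by positivity)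
          (by positivity) (by positivity) k3' k1' h k4' kA kB
          (main _ _ _ (by positivity) (by positivity) hu hv (Or.inl rfl))
      · exact arith_b x y t r R1 R2 A B N (by positivity) (by positivity) (by positivity)
          (by positivity) (by positivity) k3' k1' h k4' kA kB k2'
          (main _ _ _ (by positivity) (by positivity) hu hv (Or.inr rfl))
    · have hA : ∀ i ∈ Mx X, ((FA X).filter (fun I => tS X I = {i})).card ≤ 1 := by
        intro i hi
        by_contra hcon
        have := sA i hi (by omega)
        norm_num at this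
        omega
      have hB : ∀ j ∈ My X, ((FB X).filter (fun I => tT X I = {j})).card ≤ 1 := by
        intro i hi
        by_contra hcon
        have := sB i hi (by omega)
        norm_num at this
        omega
      have k2 := manyR hA hB
      omega
  · by_cases h54 : p = 5 ∧ q = 4
    · obtain ⟨rfl, rfl⟩ := h54
      have k1 : 2 * (x + y) + 3 * r + 20 ≤ t := by omega
      by_cases hD : 8 ≤ x + y
      · have k2 : N ≤ 47 + (x + y) + t + r := by omega
        have c5 : Nat.choose 5 2 = 10 := by decide
        have c4 : Nat.choose 4 2 = 6 := by decide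
        rw [c5] at dA
        rw [c4] at dB
        have fA := fA5 rfl
        have fB := fB4 rfl
        have kA : (A : ℝ) ≤ 10 + (x : ℝ) / 4 := by
          have : 4 * A ≤ 40 + x := by omega
          have h : (4 : ℝ) * A ≤ 40 + x := by exact_mod_cast this
          linarith
        have kB : (B : ℝ) ≤ 6 + 3 * (y : ℝ) / 8 := by
          have : 8 * B ≤ 48 + 3 * y := by omega
          have h : (8 : ℝ) * B ≤ 48 + 3 * y := by exact_mod_cast this
          linarith
        have hu : ∀ i ∈ Mx X, ((A1 X i).card : ℝ) ≤ 1 + (x : ℝ) / 16 := by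
          intro i hi
          have h := hA1 i hi
          norm_num at h
          have h2 : 16 * (A1 X i).card ≤ 16 + x := by omega
          have h3 : (16 : ℝ) * (A1 X i).card ≤ 16 + x := by exact_mod_cast h2
          linarith
        have hv : ∀ j ∈ My X, ((B1 X j).card : ℝ) ≤ 1 + (y : ℝ) / 8 := by
          intro j hj
          have h := hB1 j hj
          norm_num at h
          have h2 : 8 * (B1 X j).card ≤ 8 + y := by omega
          have h3 : (8 : ℝ) * (B1 X j).card ≤ 8 + y := by exact_mod_cast h2
          linarith
        have k1' : 2 * ((x : ℝ) + y) + 3 * r + 20 ≤ t := by exact_mod_cast k1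
        have k2' : (N : ℝ) ≤ 47 + (x + y) + t + r := by exact_mod_cast k2
        have k4' : (R1 : ℝ) + R2 ≤ r := by exact_mod_cast e11
        rcases le_total (t : ℝ) 100 with h | h
        · exact arith_c x y t r R1 R2 A B (by positivity) (by positivity) (by positivity)
            (by positivity) (by positivity) k1' h k4' kA kB
            (main _ _ _ (by positivity) (by positivity) hu hv (Or.inl rfl))
        · exact arith_d x y t r R1 R2 A B N (by positivity) (by positivity) (by positivity)
            (by positivity) (by positivity) k1' h k4' kA kB k2'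
            (main _ _ _ (by positivity) (by positivity) hu hv (Or.inr rfl))
      · have hA : ∀ i ∈ Mx X, ((FA X).filter (fun I => tS X I = {i})).card ≤ 1 := by
          intro i hi
          by_contra hcon
          have := sA i hi (by omega)
          norm_num at this
          omega
        have hB : ∀ j ∈ My X, ((FB X).filter (fun I => tT X I = {j})).card ≤ 1 := by
          intro i hi
          by_contra hcon
          have := sB i hi (by omega)
          norm_num at this
          omega
        have k2 := manyR hA hB
        omega
    · by_cases h45 : p = 4 ∧ q = 5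
      · obtain ⟨rfl, rfl⟩ := h45
        have k1 : 2 * (x + y) + 3 * r + 20 ≤ t := by omega
        by_cases hD : 8 ≤ x + y
        · have k2 : N ≤ 47 + (x + y) + t + r := by omega
          have c5 : Nat.choose 5 2 = 10 := by decide
          have c4 : Nat.choose 4 2 = 6 := by decide
          rw [c4] at dA
          rw [c5] at dB
          have fA := fA4 rfl
          have fB := fB5 rfl
          have kB : (B : ℝ) ≤ 10 + (y : ℝ) / 4 := by
            have : 4 * B ≤ 40 + y := by omega
            have h : (4 : ℝ) * B ≤ 40 + y := by exact_mod_cast this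
            linarith
          have kA : (A : ℝ) ≤ 6 + 3 * (x : ℝ) / 8 := by
            have : 8 * A ≤ 48 + 3 * x := by omega
            have h : (8 : ℝ) * A ≤ 48 + 3 * x := by exact_mod_cast this
            linarith
          have hu : ∀ i ∈ Mx X, ((A1 X i).card : ℝ) ≤ 1 + (x : ℝ) / 8 := by
            intro i hi
            have h := hA1 i hi
            norm_num at h
            have h2 : 8 * (A1 X i).card ≤ 8 + x := by omega
            have h3 : (8 : ℝ) * (A1 X i).card ≤ 8 + x := by exact_mod_cast h2
            linarith
          have hv : ∀ j ∈ My X, ((B1 X j).card : ℝ) ≤ 1 + (y : ℝ) / 16 := by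
            intro j hj
            have h := hB1 j hj
            norm_num at h
            have h2 : 16 * (B1 X j).card ≤ 16 + y := by omega
            have h3 : (16 : ℝ) * (B1 X j).card ≤ 16 + y := by exact_mod_cast h2
            linarith
          have k1' : 2 * ((y : ℝ) + x) + 3 * r + 20 ≤ t := by
            have : 2 * ((x : ℝ) + y) + 3 * r + 20 ≤ t := by exact_mod_cast k1
            linarith
          have k2' : (N : ℝ) ≤ 47 + (y + x) + t + r := by
            have : (N : ℝ) ≤ 47 + (x + y) + t + r := by exact_mod_cast k2
            linarith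
          have k4' : (R2 : ℝ) + R1 ≤ r := by
            have : (R1 : ℝ) + R2 ≤ r := by exact_mod_cast e11
            linarith
          rcases le_total (t : ℝ) 100 with h | h
          · have m := main _ _ _ (by positivity) (by positivity) hu hv (Or.inl rfl)
            exact arith_c y x t r R2 R1 B A (by positivity) (by positivity) (by positivity)
              (by positivity) (by positivity) k1' h k4' kB kA (by linarith)
          · have m := main _ _ _ (by positivity) (by positivity) hu hv (Or.inr rfl)
            exact arith_d y x t r R2 R1 B A N (by positivity) (by positivity) (by positivity)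
              (by positivity) (by positivity) k1' h k4' kB kA k2' (by linarith)
        · have hA : ∀ i ∈ Mx X, ((FA X).filter (fun I => tS X I = {i})).card ≤ 1 := by
            intro i hi
            by_contra hcon
            have := sA i hi (by omega)
            norm_num at this
            omega
          have hB : ∀ j ∈ My X, ((FB X).filter (fun I => tT X I = {j})).card ≤ 1 := by
            intro i hi
            by_contra hcon
            have := sB i hi (by omega)
            norm_num at this
            omega
          have k2 := manyR hA hB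
          omega
      · clear main sq cell cellN hA1 hB1 sA sB manyR fA5 fB5 fA4 fB4 dA dB
        rcases hp1 with rfl | rfl | rfl | rfl | rfl <;>
          rcases hq1 with rfl | rfl | rfl | rfl | rfl <;> omega

/-- The lower bounds for width at most five. -/
theorem central_width5 (w c d : ℕ)
    (hwcd : (w = 1 ∧ c = 1 ∧ d = 3) ∨ (w = 2 ∧ c = 2 ∧ d = 7) ∨
      (w = 3 ∧ c = 4 ∧ d = 15) ∨ (w = 4 ∧ c = 9 ∧ d = 35) ∨ (w = 5 ∧ c = 1 ∧ d = 4))
    [Nonempty P] (hw : ∀ A : Finset P, IsAntichain (· ≤ ·) (A : Set P) → A.card ≤ w) :
    ∃ x : P, c * (Fam P).card ≤ d * cin x ∧ c * (Fam P).card ≤ d * cout x := by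
  rcases hwcd with h | h | h | h | ⟨rfl, rfl, rfl⟩
  · exact central_width w c d (Or.inl h) hw
  · exact central_width w c d (Or.inr (Or.inl h)) hw
  · exact central_width w c d (Or.inr (Or.inr (Or.inl h))) hw
  · exact central_width w c d (Or.inr (Or.inr (Or.inr h))) hw
  · exact central_of_no_cut 5 1 4 (by norm_num)
      (fun X hX h1 h2 h3 h4 h5 h6 => no_cut5 hX h1 h2 h3 h4 h5 h6) hw

end Pool.Agent.Narrow
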