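import Pool.Agent.FewCovers.Local

/-!
MP_a217f7_co.  Types of the order ideals at a cut of a finite poset.
-/

set_option autoImplicit false

namespace Pool.Agent.Narrow

open Classical

variable {P : Type} [Fintype P] [PartialOrder P]

/-- Maximal elements of `X`. -/
noncomputable def Mx (X : Set P) : Finset P := Finset.univ.filter (fun x => Maximal (· ∈ X) x)

/-- Minimal elements outside `X`. -/
noncomputable def My (X : Set P) : Finset P := Finset.univ.filter (fun y => Minimal (· ∉ X) y)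

/-- The order ideals. -/
noncomputable def Fam (P : Type) [Fintype P] [PartialOrder P] : Finset (Set P) :=
  Finset.univ.filter (fun s => IsLowerSet s)

/-- The maximal elements of `X` missing in `I`. -/
noncomputable def tS (X I : Set P) : Finset P := (Mx X).filter (· ∉ I)

/-- The minimal elements outside `X` contained in `I`. -/
noncomputable def tT (X I : Set P) : Finset P := (My X).filter (· ∈ I)

theorem mem_Fam {I : Set P} : I ∈ Fam P ↔ IsLowerSet I := by simp [Fam]

theorem mem_Mx {X : Set P} {x : P} : x ∈ Mx X ↔ Maximal (· ∈ X) x := by simp [Mx]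

theorem mem_My {X : Set P} {y : P} : y ∈ My X ↔ Minimal (· ∉ X) y := by simp [My]

theorem mem_tS {X I : Set P} {x : P} : x ∈ tS X I ↔ x ∈ Mx X ∧ x ∉ I := by simp [tS]

theorem mem_tT {X I : Set P} {y : P} : y ∈ tT X I ↔ y ∈ My X ∧ y ∈ I := by simp [tT]

theorem exists_mx {X : Set P} {z : P} (hz : z ∈ X) : ∃ x ∈ Mx X, z ≤ x := by
  obtain ⟨d, hzd, hd⟩ := (Set.toFinite X).exists_le_maximal hz
  exact ⟨d, mem_Mx.2 hd, hzd⟩

theorem exists_my {X : Set P} {z : P} (hz : z ∉ X) : ∃ y ∈ My X, y ≤ z := by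
  obtain ⟨d, hzd, hd⟩ := (Set.toFinite (Xᶜ)).exists_le_minimal (a := z) hz
  exact ⟨d, mem_My.2 hd, hzd⟩

theorem Mx_sub {X : Set P} {x : P} (hx : x ∈ Mx X) : x ∈ X := (mem_Mx.1 hx).1

theorem My_sub {X : Set P} {y : P} (hy : y ∈ My X) : y ∉ X := (mem_My.1 hy).1

theorem sub_of_S {X I : Set P} (hI : IsLowerSet I) (h : tS X I = ∅) : X ⊆ I := by
  intro z hz
  obtain ⟨x, hx, hzx⟩ := exists_mx hz
  have : x ∈ I := by
    by_contra hxI
    have : x ∈ tS X I := mem_tS.2 ⟨hx, hxI⟩
    rw [h] at this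
    simp at this
  exact hI hzx this

theorem sub_of_T {X I : Set P} (hI : IsLowerSet I) (h : tT X I = ∅) : I ⊆ X := by
  intro z hz
  by_contra hzX
  obtain ⟨y, hy, hyz⟩ := exists_my hzX
  have : y ∈ tT X I := mem_tT.2 ⟨hy, hI hyz hz⟩
  rw [h] at this
  simp at this

theorem tS_of_sub {X I : Set P} (h : X ⊆ I) : tS X I = ∅ := by
  ext x
  simp only [mem_tS, Finset.notMem_empty, iff_false, not_and, not_not]
  intro hx
  exact h (Mx_sub hx)

theorem tT_of_sub {X I : Set P} (h : I ⊆ X) : tT X I = ∅ := by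
  ext y
  simp only [mem_tT, Finset.notMem_empty, iff_false, not_and]
  intro hy hyI
  exact My_sub hy (h hyI)

theorem tS_inter (X I J : Set P) : tS X (I ∩ J) = tS X I ∪ tS X J := by
  ext x
  simp only [mem_tS, Finset.mem_union, Set.mem_inter_iff]
  tauto

theorem tT_inter (X I J : Set P) : tT X (I ∩ J) = tT X I ∩ tT X J := by
  ext x
  simp only [mem_tT, Finset.mem_inter, Set.mem_inter_iff]
  tauto

theorem tS_union (X I J : Set P) : tS X (I ∪ J) = tS X I ∩ tS X J := by
  ext x
  simp only [mem_tS, Finset.mem_inter, Set.mem_union]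
  tauto

theorem tT_union (X I J : Set P) : tT X (I ∪ J) = tT X I ∪ tT X J := by
  ext x
  simp only [mem_tT, Finset.mem_union, Set.mem_union]
  tauto

/-- Ideals contained in `X`. -/
noncomputable def FA (X : Set P) : Finset (Set P) := (Fam P).filter (fun I => tT X I = ∅)

/-- Ideals containing `X`. -/
noncomputable def FB (X : Set P) : Finset (Set P) := (Fam P).filter (fun I => tS X I = ∅)

/-- Ideals which miss one maximal element of `X` and contain one minimal element outside. -/
noncomputable def F1 (X : Set P) : Finset (Set P) :=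
  (Fam P).filter (fun I => (tS X I).card = 1 ∧ (tT X I).card = 1)

/-- The other mixed ideals. -/
noncomputable def FR (X : Set P) : Finset (Set P) :=
  (Fam P).filter (fun I => tS X I ≠ ∅ ∧ tT X I ≠ ∅ ∧ 3 ≤ (tS X I).card + (tT X I).card)

/-- Ideals of `X` which miss a non-maximal element of `X`. -/
noncomputable def DA (X : Set P) : Finset (Set P) :=
  (FA X).filter (fun I => ∃ x ∈ Mx X, ∃ z, z < x ∧ z ∉ I)

/-- Ideals containing `X` and a non-minimal element outside `X`. -/
noncomputable def DB (X : Set P) : Finset (Set P) :=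
  (FB X).filter (fun I => ∃ y ∈ My X, ∃ z, y < z ∧ z ∈ I)

theorem mem_FA {X I : Set P} (hX : IsLowerSet X) : I ∈ FA X ↔ IsLowerSet I ∧ I ⊆ X := by
  simp only [FA, Finset.mem_filter, mem_Fam]
  constructor
  · rintro ⟨h1, h2⟩; exact ⟨h1, sub_of_T h1 h2⟩
  · rintro ⟨h1, h2⟩; exact ⟨h1, tT_of_sub h2⟩

theorem mem_FB {X I : Set P} (hX : IsLowerSet X) : I ∈ FB X ↔ IsLowerSet I ∧ X ⊆ I := by
  simp only [FB, Finset.mem_filter, mem_Fam]
  constructor
  · rintro ⟨h1, h2⟩; exact ⟨h1, sub_of_S h1 h2⟩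
  · rintro ⟨h1, h2⟩; exact ⟨h1, tS_of_sub h2⟩

/-- The number of ideals in terms of the types. -/
theorem card_types {X : Set P} (hX : IsLowerSet X) :
    (Fam P).card + 1 = (FA X).card + (FB X).card + (F1 X).card + (FR X).card := by
  have h1 : (Fam P).card + 1 = ∑ I ∈ Fam P, (1 + if I = X then 1 else 0) := by
    rw [Finset.sum_add_distrib, Finset.sum_ite_eq']
    simp [mem_Fam.2 hX]
  have h2 : (FA X).card + (FB X).card + (F1 X).card + (FR X).card =
      ∑ I ∈ Fam P, ((if tT X I = ∅ then 1 else 0) + (if tS X I = ∅ then 1 else 0) +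
        (if (tS X I).card = 1 ∧ (tT X I).card = 1 then 1 else 0) +
        (if tS X I ≠ ∅ ∧ tT X I ≠ ∅ ∧ 3 ≤ (tS X I).card + (tT X I).card then 1 else 0)) := by
    rw [Finset.sum_add_distrib, Finset.sum_add_distrib, Finset.sum_add_distrib]
    simp only [FA, FB, F1, FR, Finset.card_filter]
  rw [h1, h2]
  apply Finset.sum_congr rfl
  intro I hI
  have hIl := mem_Fam.1 hI
  by_cases hS : tS X I = ∅
  · by_cases hT : tT X I = ∅
    · have : I = X := Set.Subset.antisymm (sub_of_T hIl hT) (sub_of_S hIl hS)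
      rw [if_pos this, if_pos hT, if_pos hS]
      simp [hS, hT]
    · have hne : I ≠ X := fun h => hT (tT_of_sub (h ▸ le_rfl))
      simp [hS, hT, hne]
  · by_cases hT : tT X I = ∅
    · have hne : I ≠ X := fun h => hS (tS_of_sub (h ▸ le_rfl))
      simp [hS, hT, hne]
    · have hne : I ≠ X := fun h => hS (tS_of_sub (h ▸ le_rfl))
      have c1 : 1 ≤ (tS X I).card := Finset.card_pos.2 (Finset.nonempty_iff_ne_empty.2 hS)
      have c2 : 1 ≤ (tT X I).card := Finset.card_pos.2 (Finset.nonempty_iff_ne_empty.2 hT)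
      by_cases h3 : 3 ≤ (tS X I).card + (tT X I).card
      · have : ¬ ((tS X I).card = 1 ∧ (tT X I).card = 1) := by omega
        simp [hS, hT, hne, h3, this]
      · have : (tS X I).card = 1 ∧ (tT X I).card = 1 := by omega
        simp [hS, hT, hne, this]

/-- Lower bounds for the sums of the sizes of the types. -/
theorem sum_S {X : Set P} :
    (∑ I ∈ FA X, (tS X I).card) + (F1 X).card + (FR X).card ≤ ∑ I ∈ Fam P, (tS X I).card := by
  simp only [FA, F1, FR, Finset.card_filter, Finset.sum_filter]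
  rw [← Finset.sum_add_distrib, ← Finset.sum_add_distrib]
  apply Finset.sum_le_sum
  intro I _
  by_cases hT : tT X I = ∅
  · simp [hT]
  · by_cases hS : tS X I = ∅
    · simp [hT, hS]
    · have c1 : 1 ≤ (tS X I).card := Finset.card_pos.2 (Finset.nonempty_iff_ne_empty.2 hS)
      by_cases h3 : 3 ≤ (tS X I).card + (tT X I).card
      · have hn : ¬ ((tS X I).card = 1 ∧ (tT X I).card = 1) := by omega
        rw [if_neg hT, if_neg hn, if_pos ⟨hS, hT, h3⟩]
        omega
      · have hn : ¬ (tS X I ≠ ∅ ∧ tT X I ≠ ∅ ∧ 3 ≤ (tS X I).card + (tT X I).card) :=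
          fun h => h3 h.2.2
        rw [if_neg hT, if_neg hn]
        split_ifs <;> omega

theorem sum_T {X : Set P} :
    (∑ I ∈ FB X, (tT X I).card) + (F1 X).card + (FR X).card ≤ ∑ I ∈ Fam P, (tT X I).card := by
  simp only [FB, F1, FR, Finset.card_filter, Finset.sum_filter]
  rw [← Finset.sum_add_distrib, ← Finset.sum_add_distrib]
  apply Finset.sum_le_sum
  intro I _
  by_cases hS : tS X I = ∅
  · simp [hS]
  · by_cases hT : tT X I = ∅
    · simp [hT, hS]
    · have c1 : 1 ≤ (tT X I).card := Finset.card_pos.2 (Finset.nonempty_iff_ne_empty.2 hT)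
      by_cases h3 : 3 ≤ (tS X I).card + (tT X I).card
      · have hn : ¬ ((tS X I).card = 1 ∧ (tT X I).card = 1) := by omega
        rw [if_neg hS, if_neg hn, if_pos ⟨hS, hT, h3⟩]
        omega
      · have hn : ¬ (tS X I ≠ ∅ ∧ tT X I ≠ ∅ ∧ 3 ≤ (tS X I).card + (tT X I).card) :=
          fun h => h3 h.2.2
        rw [if_neg hS, if_neg hn]
        split_ifs <;> omega

theorem sum_ST {X : Set P} :
    (∑ I ∈ FA X, (tS X I).card) + (∑ I ∈ FB X, (tT X I).card) + 2 * (F1 X).card +
      3 * (FR X).card ≤ (∑ I ∈ Fam P, (tS X I).card) + ∑ I ∈ Fam P, (tT X I).card := by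
  simp only [FA, FB, F1, FR, Finset.card_filter, Finset.sum_filter]
  rw [Finset.mul_sum, Finset.mul_sum, ← Finset.sum_add_distrib, ← Finset.sum_add_distrib,
    ← Finset.sum_add_distrib, ← Finset.sum_add_distrib]
  apply Finset.sum_le_sum
  intro I _
  by_cases hS : tS X I = ∅
  · by_cases hT : tT X I = ∅
    · simp [hS, hT]
    · simp [hS, hT]
  · by_cases hT : tT X I = ∅
    · simp [hT, hS]
    · have c1 : 1 ≤ (tT X I).card := Finset.card_pos.2 (Finset.nonempty_iff_ne_empty.2 hT)
      have c2 : 1 ≤ (tS X I).card := Finset.card_pos.2 (Finset.nonempty_iff_ne_empty.2 hS)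
      by_cases h3 : 3 ≤ (tS X I).card + (tT X I).card
      · have : ¬ ((tS X I).card = 1 ∧ (tT X I).card = 1) := by omega
        simp [hS, hT, h3, this]
      · have : (tS X I).card = 1 ∧ (tT X I).card = 1 := by omega
        simp [hS, hT, this]

/-- Double counting. -/
theorem sum_tS (X : Set P) :
    ∑ I ∈ Fam P, (tS X I).card = ∑ x ∈ Mx X, ((Fam P).filter (fun I => x ∉ I)).card := by
  simp only [tS, Finset.card_filter]
  rw [Finset.sum_comm]

theorem sum_tT (X : Set P) :
    ∑ I ∈ Fam P, (tT X I).card = ∑ y ∈ My X, ((Fam P).filter (fun I => y ∈ I)).card := by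
  simp only [tT, Finset.card_filter]
  rw [Finset.sum_comm]

end Pool.Agent.Narrow
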